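import Pool.Agent.MP_f1fec5_al.Replace

namespace Pool.Agent.MP_f1fec5_al

open Cardinal IsLocalRing

universe u v

/-- A frame of rank two. -/
structure IsFrame2 {R : Type*} [CommRing R] (I A₁ A₂ C₂ : Ideal R) : Prop where
  le1 : I ≤ A₁
  le2 : I ≤ A₂
  leC2 : I ≤ C₂
  ind : A₁ ⊓ A₂ ≤ I
  c2b : A₂ ≤ C₂ ⊔ A₁
  c2i : C₂ ⊓ A₂ ≤ I

lemma IsFrame2.Gam_inj {R : Type*} [CommRing R] {I A₁ A₂ C₂ : Ideal R} (h : IsFrame2 I A₁ A₂ C₂)
    {d e : R} (hde : Gam I A₁ A₂ C₂ d = Gam I A₁ A₂ C₂ e) {y : R} (hy : y ∈ A₂) :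
    (d - e) * y ∈ I := by
  obtain ⟨c, hc0, x0, hx0, e0⟩ := Submodule.mem_sup.1 (h.c2b hy)
  obtain ⟨x, hx, hc⟩ : ∃ x ∈ A₁, x + y ∈ C₂ :=
    ⟨-x0, A₁.neg_mem hx0, by convert hc0 using 1; rw [← e0]; ring⟩
  have h1 : x + d * y ∈ Gam I A₁ A₂ C₂ e := hde ▸ ⟨x, hx, y, hy, hc, by simp⟩
  obtain ⟨x', hx', y', hy', hc', hi⟩ := h1
  have a1 : x - x' ∈ I := by
    refine h.ind ⟨A₁.sub_mem hx hx', ?_⟩
    have : x - x' = (x + d * y - (x' + e * y')) - (d * y - e * y') := by ring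
    rw [SetLike.mem_coe, this]
    exact A₂.sub_mem (h.le2 hi) (A₂.sub_mem (A₂.mul_mem_left d hy) (A₂.mul_mem_left e hy'))
  have a2 : d * y - e * y' ∈ I := by
    convert I.sub_mem hi a1 using 1; ring
  have d2 : y - y' ∈ I := by
    refine h.c2i ⟨?_, A₂.sub_mem hy hy'⟩
    have : y - y' = (x + y) - (x' + y') - (x - x') := by ring
    rw [SetLike.mem_coe, this]
    exact C₂.sub_mem (C₂.sub_mem hc hc') (h.leC2 a1)
  have : (d - e) * y = (d * y - e * y') - e * (y - y') := by ring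
  rw [this]
  exact I.sub_mem a2 (I.mul_mem_left _ d2)

/-- two elements of `Q` independent modulo `Q ^ 2` -/
def Indep2 {R : Type*} [CommRing R] (Q : Ideal R) (e₁ e₂ : R) : Prop :=
  e₁ ∈ Q ∧ e₂ ∈ Q ∧ ∀ r₁ r₂ : R, r₁ * e₁ + r₂ * e₂ ∈ Q * Q → r₁ ∈ Q ∧ r₂ ∈ Q

lemma Indep2.frame {R : Type*} [CommRing R] {Q : Ideal R} {e₁ e₂ : R} (h : Indep2 Q e₁ e₂) :
    IsFrame2 (Q * Q) (Ad (Q * Q) e₁) (Ad (Q * Q) e₂) (Ad (Q * Q) (e₁ + e₂)) := by
  refine ⟨le_sup_right, le_sup_right, le_sup_right, ?_, ?_, ?_⟩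
  · rintro z ⟨h1, h2⟩
    obtain ⟨r, hr⟩ := mem_Ad.1 h1
    obtain ⟨s, hs⟩ := mem_Ad.1 h2
    have := (h.2.2 r (-s) (by convert Ideal.sub_mem _ hs hr using 1; ring)).1
    simpa using Ideal.add_mem _ hr (Ideal.mul_mem_mul this h.1)
  · intro z hz
    obtain ⟨r, hr⟩ := mem_Ad.1 hz
    exact mem_Ad_sup.2 ⟨r, -r, by convert hr using 1; ring⟩
  · rintro z ⟨h1, h2⟩
    obtain ⟨r, hr⟩ := mem_Ad.1 h1
    obtain ⟨s, hs⟩ := mem_Ad.1 h2
    obtain ⟨a1, a2⟩ := h.2.2 r (r - s) (by convert Ideal.sub_mem _ hs hr using 1; ring)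
    have a3 : s ∈ Q := by simpa using Q.sub_mem a1 a2
    simpa using Ideal.add_mem _ hs (Ideal.mul_mem_mul a3 h.2.1)

lemma Indep2.coeff2 {R : Type*} [CommRing R] {Q : Ideal R} {e₁ e₂ : R} (h : Indep2 Q e₁ e₂)
    {r : R} (hr : r * e₂ ∈ Q * Q) : r ∈ Q :=
  (h.2.2 0 r (by simpa using hr)).2

namespace Model

variable {R : Type u} {D : Type v} [CommRing R] [CommRing D] (m : Model R D)

lemma frame2 {I A₁ A₂ C₂ : Ideal R} (h : IsFrame2 I A₁ A₂ C₂) (hI : Reg I) :
    IsFrame2 (m.F I) (m.F A₁) (m.F A₂) (m.F C₂) := by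
  have r1 := hI.mono h.le1
  have r2 := hI.mono h.le2
  have s2 := hI.mono h.leC2
  refine ⟨m.mono hI h.le1, m.mono hI h.le2, m.mono hI h.leC2, ?_, ?_, ?_⟩
  · rw [← m.map_inf r1 r2]; exact m.mono (r1.inf r2) h.ind
  · rw [← m.map_sup s2 r1]; exact m.mono r2 h.c2b
  · rw [← m.map_inf s2 r2]; exact m.mono (s2.inf r2) h.c2i

variable {Q : Ideal R} {e₁ e₂ : R}

lemma card_quot_le2 (h : Indep2 Q e₁ e₂) (hQ : Reg Q) :
    lift.{u} #(D ⧸ m.F Q) ≤ lift.{v} #{X : Ideal R // Q * Q ≤ X} := by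
  have hI := hQ.mul hQ
  have hf := h.frame
  have hf' := m.frame2 hf hI
  have hA := hI.mono hf.le2
  have hex : ∀ d : D, ∃ X : {X : Ideal R // Q * Q ≤ X}, m.F X.1 =
      Gam (m.F (Q * Q)) (m.F (Ad (Q * Q) e₁)) (m.F (Ad (Q * Q) e₂))
        (m.F (Ad (Q * Q) (e₁ + e₂))) d := by
    intro d
    obtain ⟨X, hX, e⟩ := m.surj _ (fun hb => m.ne_bot hI (eq_bot_iff.2 (hb ▸ le_Gam
      (m.F (Q * Q)) (m.F (Ad (Q * Q) e₁)) (m.F (Ad (Q * Q) e₂))
        (m.F (Ad (Q * Q) (e₁ + e₂))) d)))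
    exact ⟨⟨X, (m.le_iff hI hX).1 (e ▸ le_Gam _ _ _ _ _)⟩, e⟩
  choose G hG using hex
  refine lift_mk_le_lift_mk_of_injective (f := fun c : D ⧸ m.F Q => G c.out) ?_
  intro c c' hc
  have h1 := (hG c.out).symm.trans ((congrArg (fun X => m.F X.1) hc).trans (hG c'.out))
  have h2 : c.out - c'.out ∈ m.F Q := by
    by_cases h0 : c.out - c'.out = 0
    · rw [h0]; exact Ideal.zero_mem _
    obtain ⟨Z, hZ, e⟩ := m.surj (Ideal.span {c.out - c'.out}) (by simpa using h0)
    have h3 := (m.le_iff (hZ.mul hA) hI).1 (by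
      rw [m.map_mul hZ hA, e, Ideal.span_singleton_mul_le_iff]
      intro y hy
      exact hf'.Gam_inj h1 hy)
    have h4 : Z ≤ Q := fun z hz => h.coeff2 (h3 (Ideal.mul_mem_mul hz (self_mem_Ad _ _)))
    exact m.mono hZ h4 (e ▸ Ideal.mem_span_singleton_self _)
  rw [← Ideal.Quotient.mk_out c, ← Ideal.Quotient.mk_out c']
  exact Ideal.Quotient.eq.2 h2

include m in
lemma card_quot_le2' (h : Indep2 Q e₁ e₂) (hQ : Reg Q) :
    lift.{v} #(R ⧸ Q) ≤ lift.{u} #(Ideal D) := by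
  have hI := hQ.mul hQ
  have hf := h.frame
  refine lift_mk_le_lift_mk_of_injective (f := fun c : R ⧸ Q => m.F (Gam (Q * Q)
    (Ad (Q * Q) e₁) (Ad (Q * Q) e₂) (Ad (Q * Q) (e₁ + e₂)) c.out)) ?_
  intro c c' hc
  have h1 := m.inj (hI.mono (le_Gam _ _ _ _ _)) (hI.mono (le_Gam _ _ _ _ _)) hc
  have h2 := h.coeff2 (hf.Gam_inj h1 (self_mem_Ad _ _))
  rw [← Ideal.Quotient.mk_out c, ← Ideal.Quotient.mk_out c']
  exact Ideal.Quotient.eq.2 h2

lemma ne_top [Nontrivial D] (hQ : Reg Q) (hQ' : Q ≠ ⊤) : m.F Q ≠ ⊤ := by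
  intro h
  have hT : Reg (⊤ : Ideal R) := hQ.mono le_top
  exact hQ' (eq_top_iff.2 ((m.le_iff hT hQ).1 (h ▸ le_top)))

end Model

/-- Upper bound for the cardinality of a Noetherian ring separated for an ideal. -/
lemma card_le_pow_of_iInf {R : Type u} [CommRing R] [IsNoetherianRing R] (J : Ideal R)
    (hJ : ⨅ n : ℕ, J ^ n = ⊥) : #R ≤ (max #(R ⧸ J) ℵ₀) ^ ℵ₀ := by
  classical
  set c := max #(R ⧸ J) ℵ₀ with hc
  have hinf : ℵ₀ ≤ c := le_max_right _ _
  obtain ⟨s, hs⟩ := (Ideal.Quotient.mk_surjective (I := J)).hasRightInverse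
  have hZ : ∀ n : ℕ, ∃ Z : Set R, #Z ≤ c ∧ ∀ x, ∃ z ∈ Z, x - z ∈ J ^ n := by
    intro n
    induction n with
    | zero => exact ⟨{0}, by simpa using (one_le_aleph0.trans hinf), fun x => ⟨0, rfl, by simp⟩⟩
    | succ n ih =>
      obtain ⟨Z, hZ, hZ'⟩ := ih
      obtain ⟨p, g, hg⟩ := Submodule.fg_iff_exists_fin_generating_family.1
        (IsNoetherian.noetherian (J ^ n))
      refine ⟨Set.range (fun y : Z × (Fin p → R ⧸ J) => y.1.1 + ∑ i, s (y.2 i) * g i),
        ?_, fun x => ?_⟩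
      · refine mk_range_le.trans ?_
        rw [mk_prod, lift_id, lift_id, ← mul_eq_self hinf]
        refine mul_le_mul' hZ ?_
        have : #(Fin p → R ⧸ J) = #(R ⧸ J) ^ p := by simp
        rw [this]
        exact (pow_le_pow_left' (le_max_left _ _) p).trans (power_nat_le hinf)
      · obtain ⟨z, hz, hxz⟩ := hZ' x
        rw [← hg] at hxz
        obtain ⟨r, hr⟩ := (Submodule.mem_span_range_iff_exists_fun R).1 hxz
        refine ⟨_, ⟨(⟨z, hz⟩, fun i => Ideal.Quotient.mk J (r i)), rfl⟩, ?_⟩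
        have e : x - (z + ∑ i, s (Ideal.Quotient.mk J (r i)) * g i)
            = ∑ i, (r i - s (Ideal.Quotient.mk J (r i))) * g i := by
          simp only [sub_mul, Finset.sum_sub_distrib]
          simp only [smul_eq_mul] at hr
          rw [hr]; ring
        simp only
        rw [e, pow_succ']
        refine Ideal.sum_mem _ fun i _ => Ideal.mul_mem_mul ?_ ?_
        · rw [← Ideal.Quotient.eq, hs]
        · rw [← hg]; exact Submodule.subset_span ⟨i, rfl⟩
  choose Z hZ z hz hz' using hZ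
  have hinj : Function.Injective (fun x : R => (fun n : ℕ => (⟨z n x, hz n x⟩ : Z n))) := by
    intro x y hxy
    rw [← sub_eq_zero, ← Ideal.mem_bot, ← hJ, Ideal.mem_iInf]
    intro n
    have e : z n x = z n y := congrArg Subtype.val (congrFun hxy n)
    have := Ideal.sub_mem _ (hz' n x) (hz' n y)
    rw [e] at this
    simpa using this
  refine (mk_le_of_injective hinj).trans ?_
  rw [mk_pi]
  refine (prod_le_prod _ (fun _ => c) hZ).trans ?_
  simp

section Local

variable {T : Type u} [CommRing T] [IsLocalRing T] [IsNoetherianRing T]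

lemma reg_max (hM : maximalIdeal T ∉ associatedPrimes T T) : Reg (maximalIdeal T) := by
  obtain ⟨a, haM, ha⟩ := exists_avoid _ (associatedPrimes.finite T T) (fun P hP => hP.isPrime) hM
  exact ⟨a, haM, (regular_iff a).2 ha⟩

lemma exists_indep2 (hM : maximalIdeal T ∉ associatedPrimes T T)
    (hV : ¬ ∃ _ : IsDomain T, IsDiscreteValuationRing T) :
    ∃ e₁ e₂, Indep2 (maximalIdeal T) e₁ e₂ := by
  by_contra hcon
  push Not at hcon
  obtain ⟨t, htM, ht⟩ := reg_max hM
  have hjac : maximalIdeal T ≤ Ideal.jacobson ⊥ := maximalIdeal_le_jacobson _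
  have hne : maximalIdeal T ≠ ⊥ := fun h =>
    nonZeroDivisors.ne_zero ht (Ideal.mem_bot.1 (h ▸ htM))
  obtain ⟨e, heM, he⟩ : ∃ e ∈ maximalIdeal T, e ∉ maximalIdeal T * maximalIdeal T := by
    by_contra h
    push Not at h
    exact hne (Submodule.eq_bot_of_le_smul_of_le_jacobson_bot _ _ (IsNoetherian.noetherian _)
      h hjac)
  have hle : maximalIdeal T ≤ Ideal.span {e} := by
    refine Submodule.le_of_le_smul_of_le_jacobson_bot (IsNoetherian.noetherian _) hjac ?_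
    intro y hy
    have h1 := hcon e y
    unfold Indep2 at h1
    push Not at h1
    obtain ⟨r₁, r₂, hr, hr'⟩ := h1 heM hy
    have hr2 : r₂ ∉ maximalIdeal T := by
      intro h2
      have h3 : r₁ ∉ maximalIdeal T := fun h => hr' h h2
      have h4 := Ideal.sub_mem _ hr (Ideal.mul_mem_mul h2 hy)
      rw [add_sub_cancel_right, Ideal.unit_mul_mem_iff_mem _ (notMem_maximalIdeal.1 h3)] at h4
      exact he h4
    rw [← Ideal.unit_mul_mem_iff_mem _ (notMem_maximalIdeal.1 hr2)]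
    exact Ideal.mem_span_singleton_sup.2 ⟨-r₁, _, hr, by ring⟩
  have heq : maximalIdeal T = Ideal.span {e} :=
    le_antisymm hle ((Ideal.span_singleton_le_iff_mem _).2 heM)
  have hereg : e ∈ nonZeroDivisors T := by
    obtain ⟨c, rfl⟩ := Ideal.mem_span_singleton'.1 (hle htM)
    exact (mul_mem_nonZeroDivisors.1 ht).2
  have hall : ∀ x : T, x ≠ 0 → x ∈ nonZeroDivisors T := by
    classical
    intro x hx
    have hex : ∃ n, x ∉ maximalIdeal T ^ n := by
      by_contra h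
      push Not at h
      exact hx (mem_of_forall_mem_sup ⊥ fun n => Ideal.mem_sup_right (h n))
    have h0 := Nat.find_spec hex
    obtain ⟨n, hn⟩ : ∃ n, Nat.find hex = n + 1 := by
      refine Nat.exists_eq_succ_of_ne_zero fun h => h0 ?_
      rw [h]; simp
    have h1 : x ∈ maximalIdeal T ^ n := not_not.1 (Nat.find_min hex (by omega))
    rw [hn] at h0
    rw [heq, Ideal.span_singleton_pow] at h1
    obtain ⟨c, rfl⟩ := Ideal.mem_span_singleton'.1 h1
    refine mul_mem (IsUnit.mem_nonZeroDivisors (notMem_maximalIdeal.1 fun hc => h0 ?_))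
      (pow_mem hereg n)
    rw [pow_succ']
    exact Ideal.mul_mem_mul hc (Ideal.pow_mem_pow heM n)
  have : NoZeroDivisors T := ⟨fun {a b} hab => by
    by_cases ha : a = 0
    · exact Or.inl ha
    · exact Or.inr ((mem_nonZeroDivisors_iff_left.1 (hall a ha)) _ hab)⟩
  have hdom : IsDomain T := NoZeroDivisors.to_isDomain T
  refine hV ⟨hdom, ?_⟩
  have hnf : ¬ IsField T := fun h => hne (isField_iff_maximalIdeal_eq.1 h)
  have hpr : (maximalIdeal T).IsPrincipal := ⟨e, heq⟩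
  exact ((IsDiscreteValuationRing.TFAE T hnf).out 4 0).1 hpr

end Local

section Product

variable {ι : Type} [Finite ι] {T : ι → Type u} [∀ i, CommRing (T i)]

omit [Finite ι] in
lemma lift_indep2 (i : ι) {M : Ideal (T i)} {e₁ e₂ : T i} (h : Indep2 M e₁ e₂) (hM : Reg M) :
    ∃ E₁ E₂ : Π j, T j, Indep2 (M.comap (Pi.evalRingHom T i)) E₁ E₂ ∧
      Reg (M.comap (Pi.evalRingHom T i)) ∧ RingHom.ker (Pi.evalRingHom T i)
        ≤ M.comap (Pi.evalRingHom T i) * M.comap (Pi.evalRingHom T i) := by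
  classical
  obtain ⟨s, hs, hs'⟩ := hM
  have hs1 : Function.update (1 : Π j, T j) i s ∈ M.comap (Pi.evalRingHom T i) := by
    simpa [Ideal.mem_comap] using hs
  refine ⟨Pi.single i e₁, Pi.single i e₂, ⟨by simpa [Ideal.mem_comap] using h.1,
    by simpa [Ideal.mem_comap] using h.2.1, fun r₁ r₂ hr => ?_⟩,
    ⟨Function.update 1 i s, hs1, ?_⟩, ?_⟩
  · have h1 := Ideal.mem_map_of_mem (Pi.evalRingHom T i) hr
    rw [Ideal.map_mul, Ideal.map_comap_of_surjective _ (Function.surjective_eval i)] at h1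
    exact h.2.2 (r₁ i) (r₂ i) (by simpa using h1)
  · rw [pi_regular_iff]
    intro j
    by_cases hj : j = i
    · subst hj; simpa using hs'
    · rw [Function.update_of_ne hj]; exact one_mem _
  · intro x hx
    have hx' : x i = 0 := hx
    have e : x = x * Function.update (1 : Π j, T j) i s := by
      ext j
      by_cases hj : j = i
      · subst hj; simp [hx']
      · simp [Function.update_of_ne hj]
    rw [e]
    exact Ideal.mul_mem_mul (by simp [Ideal.mem_comap, hx']) hs1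

variable [∀ i, IsLocalRing (T i)] [∀ i, IsNoetherianRing (T i)]
  [∀ i, IsAdicComplete (maximalIdeal (T i)) (T i)]

/-- Necessity of the cardinality condition. -/
lemma card_le_of_model {D : Type v} [CommRing D] [IsDomain D] (m : Model (Π i, T i) D) (i j : ι)
    (hi : maximalIdeal (T i) ∉ associatedPrimes (T i) (T i))
    (hi' : ¬ ∃ _ : IsDomain (T i), IsDiscreteValuationRing (T i))
    (hj : maximalIdeal (T j) ∉ associatedPrimes (T j) (T j))
    (hj' : ¬ ∃ _ : IsDomain (T j), IsDiscreteValuationRing (T j)) : #(T j) ≤ #(T i) := by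
  have := m.isNoetherianRing
  obtain ⟨P, hP⟩ := associatedPrimes.nonempty (T i) (T i)
  obtain ⟨Q, hQ⟩ := associatedPrimes.nonempty (T j) (T j)
  have := hP.isPrime
  have := hQ.isPrime
  have hPi : P ≠ maximalIdeal (T i) := fun h => hi (h ▸ hP)
  have hQj : Q ≠ maximalIdeal (T j) := fun h => hj (h ▸ hQ)
  have a0 := (aleph0_lt_card P hPi).le
  have a3 : #(T i) ^ ℵ₀ = #(T i) := by
    rw [card_eq_pow P hPi, ← power_mul, aleph0_mul_aleph0]
  have a1 : lift.{u} #D ≤ lift.{v} #(T i) := by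
    obtain ⟨e₁, e₂, h⟩ := exists_indep2 hi hi'
    obtain ⟨E₁, E₂, hE, hR, hker⟩ := lift_indep2 i h (reg_max hi)
    have hsurj : Function.Surjective (Pi.evalRingHom T i) := Function.surjective_eval i
    have b1 : lift.{u} #(D ⧸ m.F ((maximalIdeal (T i)).comap (Pi.evalRingHom T i)))
        ≤ lift.{v} #(T i) := by
      refine (m.card_quot_le2 hE hR).trans (lift_le.2 ?_)
      refine le_trans ?_ ((card_ideal_le (T i)).trans (max_eq_left a0).le)
      refine mk_le_of_injective (f := fun X => X.1.map (Pi.evalRingHom T i)) ?_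
      intro X Y hXY
      have := congrArg (Ideal.comap (Pi.evalRingHom T i)) hXY
      simp only [Ideal.comap_map_of_surjective _ hsurj, ← RingHom.ker_eq_comap_bot] at this
      rw [sup_eq_left.2 (hker.trans X.2), sup_eq_left.2 (hker.trans Y.2)] at this
      exact Subtype.ext this
    have b2 := card_le_pow_of_iInf _ (Ideal.iInf_pow_eq_bot_of_isDomain _
      (m.ne_top hR (Ideal.comap_ne_top _ (maximalIdeal.isMaximal (T i)).ne_top)))
    refine (lift_le.{u}.2 b2).trans ?_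
    rw [← a3, lift_power, lift_power, lift_aleph0, lift_aleph0, lift_max, lift_aleph0]
    exact power_le_power_right (max_le b1 (aleph0_le_lift.2 a0))
  have a2 : lift.{v} #(ResidueField (T j)) ≤ lift.{u} (max #D ℵ₀) := by
    obtain ⟨e₁, e₂, h⟩ := exists_indep2 hj hj'
    obtain ⟨E₁, E₂, hE, hR, -⟩ := lift_indep2 j h (reg_max hj)
    refine le_trans (lift_le.2 ?_) ((m.card_quot_le2' hE hR).trans (lift_le.2 (card_ideal_le D)))
    exact mk_le_of_surjective (Ideal.quotientMap_surjective (I := maximalIdeal (T j))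
      (f := Pi.evalRingHom T j) (H := le_rfl) (Function.surjective_eval j))
  have a4 : lift.{v} #(ResidueField (T j)) ≤ lift.{v} #(T i) := by
    refine a2.trans ?_
    rw [lift_max, lift_aleph0]
    exact max_le a1 (aleph0_le_lift.2 a0)
  rw [card_eq_pow Q hQj, ← a3]
  exact power_le_power_right (lift_le.1 a4)

end Product

theorem complete_iff' {ι : Type} [Finite ι] [Nonempty ι] (T : ι → Type u)
    [∀ i, CommRing (T i)] [∀ i, IsLocalRing (T i)] [∀ i, IsNoetherianRing (T i)]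
    [∀ i, IsAdicComplete (maximalIdeal (T i)) (T i)]
    (h : IntCond T ∨ ∀ i, Essential (T i) →
      ∀ P ∈ associatedPrimes (T i) (T i), 2 ≤ ringKrullDim (T i ⧸ P)) :
    HasDomainModel.{u, max u v} (Π i, T i) ↔
      IntCond T ∧ ∀ i j, Essential (T i) → Essential (T j) → #(T i) = #(T j) := by
  have hrest : ∀ i, ¬ Essential (T i) → maximalIdeal (T i) ∈ associatedPrimes (T i) (T i) ∨
      ∃ _ : IsDomain (T i), IsDiscreteValuationRing (T i) := by
    intro i hi
    by_contra hc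
    rw [not_or] at hc
    exact hi hc
  rcases h with h | h
  · constructor
    · intro hm
      have : Inhabited ι := Classical.inhabited_of_nonempty inferInstance
      have : Nontrivial (Π i, T i) := Pi.nontrivial
      obtain ⟨D, _, _, ⟨m⟩⟩ := hm.exists_model
      exact ⟨h, fun i j hi hj => le_antisymm (card_le_of_model m j i hj.1 hj.2 hi.1 hi.2)
        (card_le_of_model m i j hi.1 hi.2 hj.1 hj.2)⟩
    · rintro ⟨h1, h2⟩
      exact complete_suff T (fun i => Essential (T i)) (fun i hi => hi.1) hrest h1 h2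
  · exact complete_iff T (fun i => Essential (T i)) h hrest

end Pool.Agent.MP_f1fec5_al
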