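import Mathlib

namespace Pool.Agent.MP_f1fec5_al

universe u v

/-- The lattice of the zero ideal and the regular ideals (those containing a non-zero-divisor),
ordered by inclusion. -/
abbrev RegIdeal (R : Type u) [CommRing R] : Type u :=
  {J : Ideal R // J = ⊥ ∨ ∃ x ∈ J, x ∈ nonZeroDivisors R}

/-- There is an integral domain `D` and an order isomorphism from the lattice of zero and regular
ideals of `R` onto the lattice of all ideals of `D` that preserves products. -/
def HasDomainModel (R : Type u) [CommRing R] : Prop :=
  ∃ (D : Type v) (_ : CommRing D) (_ : IsDomain D) (φ : RegIdeal R ≃o Ideal D),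
    ∀ I J K : RegIdeal R, K.1 = I.1 * J.1 → φ K = φ I * φ J

/-- A local ring is essential if its maximal ideal is not an associated prime and it is not a
discrete valuation ring. -/
def Essential (S : Type u) [CommRing S] [IsLocalRing S] : Prop :=
  IsLocalRing.maximalIdeal S ∉ associatedPrimes S S ∧
    ¬ ∃ _ : IsDomain S, IsDiscreteValuationRing S

/-- Every integer is zero in all essential members of the family, or is a non-zero-divisor in all
essential members of the family. -/
def IntCond {ι : Type} (T : ι → Type u) [∀ i, CommRing (T i)] [∀ i, IsLocalRing (T i)] : Prop :=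
  ∀ n : ℤ, (∀ i, Essential (T i) → (n : T i) = 0) ∨
    (∀ i, Essential (T i) → (n : T i) ∈ nonZeroDivisors (T i))

end Pool.Agent.MP_f1fec5_al
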