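import Pool.Agent.MP_f1fec5_al.Defs

namespace Pool.Agent.MP_f1fec5_al

open Cardinal Polynomial
open scoped Pointwise

universe u v

/-- A dense saturated subring whose nonzero elements are regular is a model. -/
theorem hasDomainModel_of_subring {R : Type u} [CommRing R] [Nontrivial R] (D : Subring R)
    (hreg : ∀ a ∈ D, a ≠ 0 → a ∈ nonZeroDivisors R)
    (hsat : ∀ a ∈ D, a ≠ 0 → ∀ r : R, a * r ∈ D → r ∈ D)
    (hdense : ∀ t ∈ nonZeroDivisors R, ∀ r : R, ∃ d ∈ D, ∃ s : R, r = d + t * s) :
    HasDomainModel.{u, u} R := by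
  have hnz : NoZeroDivisors D := ⟨fun {a b} hab => by
    by_cases ha : a = 0
    · exact Or.inl ha
    · right
      have h1 := hreg a.1 a.2 (fun h => ha (Subtype.ext h))
      have h2 : a.1 * b.1 = 0 := congrArg Subtype.val hab
      exact Subtype.ext ((mem_nonZeroDivisors_iff_left.1 h1) _ h2)⟩
  have hdom : IsDomain D := NoZeroDivisors.to_isDomain D
  have hmap : ∀ I : Ideal D, I.map D.subtype = ⊥ ∨ ∃ x ∈ I.map D.subtype,
      x ∈ nonZeroDivisors R := by
    intro I
    by_cases hI : I = ⊥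
    · left; rw [hI, Ideal.map_bot]
    · right
      obtain ⟨a, ha, ha0⟩ := Submodule.exists_mem_ne_zero_of_ne_bot hI
      exact ⟨a.1, Ideal.mem_map_of_mem D.subtype ha,
        hreg a.1 a.2 (fun h => ha0 (Subtype.ext h))⟩
  have hcm : ∀ I : Ideal D, (I.map D.subtype).comap D.subtype = I := by
    intro I
    refine le_antisymm ?_ Ideal.le_comap_map
    by_cases hI : I = ⊥
    · rw [hI, Ideal.map_bot]
      intro x hx
      rw [Ideal.mem_comap, Ideal.mem_bot] at hx
      exact Ideal.mem_bot.2 (Subtype.ext hx)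
    obtain ⟨a, ha, ha0⟩ := Submodule.exists_mem_ne_zero_of_ne_bot hI
    have ha0' : a.1 ≠ 0 := fun h => ha0 (Subtype.ext h)
    have key : ∀ y ∈ I.map D.subtype, ∃ i ∈ I, ∃ s : R, y = i.1 + a.1 * s := by
      intro y hy
      refine Submodule.span_induction (p := fun y _ => ∃ i ∈ I, ∃ s : R, y = i.1 + a.1 * s)
        ?_ ?_ ?_ ?_ hy
      · rintro _ ⟨i, hi, rfl⟩
        exact ⟨i, hi, 0, by simp⟩
      · exact ⟨0, I.zero_mem, 0, by simp⟩
      · rintro x y _ _ ⟨i, hi, s, rfl⟩ ⟨j, hj, s', rfl⟩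
        exact ⟨i + j, I.add_mem hi hj, s + s', by push_cast; ring⟩
      · rintro r x _ ⟨i, hi, s, rfl⟩
        obtain ⟨d, hd, s', rfl⟩ := hdense a.1 (hreg a.1 a.2 ha0') r
        refine ⟨⟨d, hd⟩ * i, I.mul_mem_left _ hi, s' * i.1 + (d + a.1 * s') * s, ?_⟩
        simp only [smul_eq_mul, Subring.coe_mul]
        ring
    intro x hx
    obtain ⟨i, hi, s, hs⟩ := key _ (Ideal.mem_comap.1 hx)
    have hs' : a.1 * s ∈ D := by
      have : a.1 * s = x.1 - i.1 := by
        have : x.1 = i.1 + a.1 * s := hs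
        rw [this]; ring
      rw [this]
      exact D.sub_mem x.2 i.2
    have hsD := hsat a.1 a.2 ha0' s hs'
    have : x = i + a * ⟨s, hsD⟩ := Subtype.ext hs
    rw [this]
    exact I.add_mem hi (I.mul_mem_right _ ha)
  have hmc : ∀ J : RegIdeal R, (J.1.comap D.subtype).map D.subtype = J.1 := by
    rintro ⟨J, hJ⟩
    refine le_antisymm Ideal.map_comap_le ?_
    rcases hJ with hJ | ⟨t, htJ, ht⟩
    · simp only [hJ]; exact bot_le
    have hne : ∃ a ∈ D, a ≠ 0 ∧ a ∈ J := by
      obtain ⟨d, hd, s, hs⟩ := hdense (t * t) (mul_mem ht ht) t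
      by_cases hd0 : d = 0
      · refine ⟨1, D.one_mem, one_ne_zero, ?_⟩
        have h1 : t * (1 - t * s) = 0 := by
          rw [hd0] at hs
          linear_combination hs
        have h2 : 1 - t * s = 0 := (mem_nonZeroDivisors_iff_left.1 ht) _ h1
        have h3 : (1 : R) = t * s := by linear_combination h2
        rw [h3]
        exact J.mul_mem_right _ htJ
      · refine ⟨d, hd, hd0, ?_⟩
        have : d = t * (1 - t * s) := by linear_combination -hs
        rw [this]
        exact J.mul_mem_right _ htJ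
    obtain ⟨a, haD, ha0, haJ⟩ := hne
    intro y hy
    obtain ⟨d, hd, s, hs⟩ := hdense a (hreg a haD ha0) y
    have hdJ : d ∈ J := by
      have : d = y - a * s := by linear_combination -hs
      rw [this]
      exact J.sub_mem hy (J.mul_mem_right _ haJ)
    simp only
    rw [hs]
    refine Ideal.add_mem _ ?_ (Ideal.mul_mem_right _ _ ?_)
    · exact Ideal.mem_map_of_mem D.subtype (I := J.comap D.subtype) (x := ⟨d, hd⟩) hdJ
    · exact Ideal.mem_map_of_mem D.subtype (I := J.comap D.subtype) (x := ⟨a, haD⟩) haJ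
  let φ : RegIdeal R ≃o Ideal D :=
    { toFun := fun J => J.1.comap D.subtype
      invFun := fun I => ⟨I.map D.subtype, hmap I⟩
      left_inv := fun J => Subtype.ext (hmc J)
      right_inv := hcm
      map_rel_iff' := by
        intro I J
        constructor
        · intro h
          have h' : I.1.comap D.subtype ≤ J.1.comap D.subtype := h
          have := Ideal.map_mono (f := D.subtype) h'
          rw [hmc, hmc] at this
          exact this
        · intro h
          exact Ideal.comap_mono (f := D.subtype) h }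
  refine ⟨D, inferInstance, hdom, φ, fun I J K hK => ?_⟩
  have : K.1 = (I.1.comap D.subtype * J.1.comap D.subtype).map D.subtype := by
    rw [Ideal.map_mul, hmc, hmc, hK]
  change K.1.comap D.subtype = I.1.comap D.subtype * J.1.comap D.subtype
  rw [this, hcm]

/-- From a dense subring whose nonzero elements are regular to a saturated one. -/
theorem hasDomainModel_of_subring' {R : Type u} [CommRing R] [Nontrivial R] (A : Subring R)
    (hreg : ∀ a ∈ A, a ≠ 0 → a ∈ nonZeroDivisors R)
    (hdense : ∀ t ∈ nonZeroDivisors R, ∀ r : R, ∃ d ∈ A, ∃ s : R, r = d + t * s) :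
    HasDomainModel.{u, u} R := by
  have hmul : ∀ a ∈ A, ∀ b ∈ A, a ≠ 0 → b ≠ 0 → a * b ≠ 0 := fun a ha b hb ha0 hb0 h =>
    hb0 ((mem_nonZeroDivisors_iff_left.1 (hreg a ha ha0)) _ h)
  let D : Subring R :=
    { carrier := {a | ∃ b ∈ A, b ≠ 0 ∧ a * b ∈ A}
      mul_mem' := by
        rintro a a' ⟨b, hb, hb0, hab⟩ ⟨b', hb', hb0', hab'⟩
        refine ⟨b * b', A.mul_mem hb hb', hmul b hb b' hb' hb0 hb0', ?_⟩
        have : a * a' * (b * b') = (a * b) * (a' * b') := by ring
        rw [this]
        exact A.mul_mem hab hab'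
      one_mem' := ⟨1, A.one_mem, one_ne_zero, by simp⟩
      add_mem' := by
        rintro a a' ⟨b, hb, hb0, hab⟩ ⟨b', hb', hb0', hab'⟩
        refine ⟨b * b', A.mul_mem hb hb', hmul b hb b' hb' hb0 hb0', ?_⟩
        have : (a + a') * (b * b') = (a * b) * b' + (a' * b') * b := by ring
        rw [this]
        exact A.add_mem (A.mul_mem hab hb') (A.mul_mem hab' hb)
      zero_mem' := ⟨1, A.one_mem, one_ne_zero, by simp⟩
      neg_mem' := by
        rintro a ⟨b, hb, hb0, hab⟩
        refine ⟨b, hb, hb0, ?_⟩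
        rw [neg_mul]
        exact A.neg_mem hab }
  have hle : ∀ a ∈ A, a ∈ D := fun a ha => ⟨1, A.one_mem, one_ne_zero, by simpa using ha⟩
  refine hasDomainModel_of_subring D ?_ ?_ ?_
  · rintro a ⟨b, hb, hb0, hab⟩ ha0
    have h1 : a * b ≠ 0 := fun h =>
      ha0 ((mem_nonZeroDivisors_iff_right.1 (hreg b hb hb0)) _ h)
    exact (mul_mem_nonZeroDivisors.1 (hreg _ hab h1)).1
  · rintro a ⟨b, hb, hb0, hab⟩ ha0 r ⟨b', hb', hb0', hab'⟩
    have h1 : a * b ≠ 0 := fun h =>
      ha0 ((mem_nonZeroDivisors_iff_right.1 (hreg b hb hb0)) _ h)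
    refine ⟨a * b * b', A.mul_mem hab hb', hmul _ hab _ hb' h1 hb0', ?_⟩
    have : r * (a * b * b') = (a * r * b') * b := by ring
    rw [this]
    exact A.mul_mem hab' hb
  · intro t ht r
    obtain ⟨d, hd, s, hs⟩ := hdense t ht r
    exact ⟨d, hle d hd, s, hs⟩

/-- Changing the universe of the model. -/
theorem HasDomainModel.ulift {R : Type u} [CommRing R] (h : HasDomainModel.{u, u} R) :
    HasDomainModel.{u, max u v} R := by
  obtain ⟨D, _, _, φ, hφ⟩ := h
  let e : D ≃+* ULift.{v} D := ULift.ringEquiv.symm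
  have : IsDomain (ULift.{v} D) := e.symm.toMulEquiv.isDomain D
  let ψ : Ideal D ≃o Ideal (ULift.{v} D) :=
    { toFun := fun I => I.map (e : D →+* ULift.{v} D)
      invFun := fun I => I.map (e.symm : ULift.{v} D →+* D)
      left_inv := fun I => by simp [Ideal.map_map]
      right_inv := fun I => by simp [Ideal.map_map]
      map_rel_iff' := by
        intro I J
        constructor
        · intro h
          have := Ideal.map_mono (f := (e.symm : ULift.{v} D →+* D)) h
          simpa [Ideal.map_map] using this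
        · intro h
          exact Ideal.map_mono h }
  refine ⟨ULift.{v} D, inferInstance, this, φ.trans ψ, fun I J K hK => ?_⟩
  change (φ K).map (e : D →+* ULift.{v} D)
    = (φ I).map (e : D →+* ULift.{v} D) * (φ J).map (e : D →+* ULift.{v} D)
  rw [hφ I J K hK, Ideal.map_mul]

/-- `S` is not algebraic over any subring generated by fewer than `c` elements. -/
def BigTr (S : Type u) [CommRing S] (c : Cardinal.{u}) : Prop :=
  ∀ X : Set S, #X < c → ∃ y : S, Transcendental (Subring.closure X) y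

lemma transc_mono {S : Type u} [CommRing S] {A B : Subring S} (h : A ≤ B) {y : S}
    (hy : Transcendental B y) : Transcendental A y := by
  let : Algebra A B := (Subring.inclusion h).toAlgebra
  have : IsScalarTower A B S := IsScalarTower.of_algebraMap_eq fun _ => rfl
  exact hy.restrictScalars (Subring.inclusion_injective h)

/-- One element transcendental modulo finitely many primes at once. -/
lemma exists_transc {R : Type u} [CommRing R] (Ps : Finset (Ideal R))
    (hprime : ∀ P ∈ Ps, P.IsPrime) (hbig : ∀ P ∈ Ps, BigTr (R ⧸ P) #R)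
    (X : Set R) (hX : #X < #R) :
    ∃ y : R, ∀ P ∈ Ps,
      Transcendental (Subring.closure (Ideal.Quotient.mk P '' X)) (Ideal.Quotient.mk P y) := by
  by_contra hcon
  push Not at hcon
  let B : Ps → AddSubgroup R := fun P =>
    haveI := hprime P.1 P.2
    ((Subalgebra.algebraicClosure (Subring.closure (Ideal.Quotient.mk P.1 '' X))
      (R ⧸ P.1)).toSubring.toAddSubgroup).comap (Ideal.Quotient.mk P.1).toAddMonoidHom
  have hB : ∀ (P : Ps) (y : R), y ∈ B P ↔
      IsAlgebraic (Subring.closure (Ideal.Quotient.mk P.1 '' X)) (Ideal.Quotient.mk P.1 y) :=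
    fun P y => Iff.rfl
  have hcover : ⋃ P ∈ (Finset.univ : Finset Ps), (0 : R) +ᵥ ((B P : AddSubgroup R) : Set R)
      = Set.univ := by
    refine Set.eq_univ_of_forall fun y => ?_
    obtain ⟨P, hP, hy⟩ := hcon y
    simp only [Finset.mem_univ, Set.iUnion_true, zero_vadd, Set.mem_iUnion]
    exact ⟨⟨P, hP⟩, (hB ⟨P, hP⟩ y).2 (not_not.1 hy)⟩
  obtain ⟨P, -, hfin⟩ := AddSubgroup.exists_finiteIndex_of_leftCoset_cover hcover
  have := hprime P.1 P.2
  obtain ⟨z, hz⟩ := hbig P.1 P.2 (Ideal.Quotient.mk P.1 '' X) (lt_of_le_of_lt mk_image_le hX)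
  obtain ⟨y, rfl⟩ := Ideal.Quotient.mk_surjective z
  have : Finite (R ⧸ B P) := AddSubgroup.finite_quotient_of_finiteIndex
  have hpair : ∀ i j : ℕ, i < j → y ^ j - y ^ i ∉ B P := by
    intro i j hij hmem
    rw [hB] at hmem
    have hdeg : (Polynomial.X ^ j - Polynomial.X ^ i :
        (Subring.closure (Ideal.Quotient.mk P.1 '' X))[X]).natDegree = j := by
      rw [natDegree_sub_eq_left_of_natDegree_lt] <;> simp [hij]
    have hlead : (Polynomial.X ^ j - Polynomial.X ^ i :
        (Subring.closure (Ideal.Quotient.mk P.1 '' X))[X]).leadingCoeff = 1 := by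
      rw [leadingCoeff_sub_of_degree_lt]
      · simp
      · simpa using hij
    have := hz.aeval _ (by rw [hdeg]; omega) (by rw [hlead]; exact one_mem _)
    apply this
    simpa using hmem
  obtain ⟨i, j, hne, heq⟩ := Finite.exists_ne_map_eq_of_infinite
    (fun n : ℕ => (QuotientAddGroup.mk (y ^ n) : R ⧸ B P))
  rw [QuotientAddGroup.eq] at heq
  rcases lt_or_gt_of_ne hne with h | h
  · exact hpair i j h (by rwa [neg_add_eq_sub] at heq)
  · refine hpair j i h ?_
    have := (B P).neg_mem heq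
    rwa [neg_add_eq_sub, neg_sub] at this

/-- One step of the construction. -/
lemma exists_step {R : Type u} [CommRing R] [Infinite R] (Ps : Finset (Ideal R))
    (hprime : ∀ P ∈ Ps, P.IsPrime) (hbig : ∀ P ∈ Ps, BigTr (R ⧸ P) #R)
    (X : Set R) (hX : #X < #R) (r t : R) (ht : ∀ P ∈ Ps, t ∉ P) :
    ∃ z : R, (∃ s, z = r + t * s) ∧ ∀ P ∈ Ps,
      Transcendental (Subring.closure (Ideal.Quotient.mk P '' X)) (Ideal.Quotient.mk P z) := by
  have hX' : #(insert r (insert t X) : Set R) < #R := by
    have h1 : ∀ (Y : Set R) (a : R), #Y < #R → #(insert a Y : Set R) < #R := fun Y a hY =>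
      lt_of_le_of_lt mk_insert_le (add_lt_of_lt (aleph0_le_mk R) hY
        (lt_of_lt_of_le one_lt_aleph0 (aleph0_le_mk R)))
    exact h1 _ _ (h1 _ _ hX)
  obtain ⟨y, hy⟩ := exists_transc Ps hprime hbig _ hX'
  refine ⟨r + t * y, ⟨y, rfl⟩, fun P hP => ?_⟩
  have := hprime P hP
  set S := Subring.closure (Ideal.Quotient.mk P '' (insert r (insert t X))) with hS
  have hr : Ideal.Quotient.mk P r ∈ S := Subring.subset_closure ⟨r, by simp, rfl⟩
  have ht' : Ideal.Quotient.mk P t ∈ S := Subring.subset_closure ⟨t, by simp, rfl⟩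
  have ht0 : (⟨_, ht'⟩ : S) ≠ 0 := fun h =>
    ht P hP (Ideal.Quotient.eq_zero_iff_mem.1 (congrArg Subtype.val h))
  have h1 := (hy P hP).aeval (C (⟨_, ht'⟩ : S) * Polynomial.X + C (⟨_, hr⟩ : S))
    (by rw [natDegree_linear ht0]; exact one_ne_zero)
    (by rw [leadingCoeff_linear ht0]; exact mem_nonZeroDivisors_of_ne_zero ht0)
  have h2 : aeval (Ideal.Quotient.mk P y) (C (⟨_, ht'⟩ : S) * Polynomial.X + C (⟨_, hr⟩ : S))
      = Ideal.Quotient.mk P (r + t * y) := by
    simp only [map_add, map_mul, aeval_C, aeval_X]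
    change Ideal.Quotient.mk P t * _ + Ideal.Quotient.mk P r = _
    ring
  rw [h2] at h1
  refine transc_mono (Subring.closure_mono (Set.image_mono ?_)) h1
  exact (Set.subset_insert _ _).trans (Set.subset_insert _ _)

/-- Adjoining a transcendental element keeps the intersection with the prime trivial. -/
lemma inter_trivial_insert {R : Type u} [CommRing R] (P : Ideal R) (X : Set R) (z : R)
    (hX : ∀ a ∈ Subring.closure X, a ∈ P → a = 0)
    (hz : Transcendental (Subring.closure (Ideal.Quotient.mk P '' X)) (Ideal.Quotient.mk P z)) :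
    ∀ a ∈ Subring.closure (insert z X), a ∈ P → a = 0 := by
  intro a ha haP
  set A := Subring.closure X with hA
  set S := Subring.closure (Ideal.Quotient.mk P '' X) with hS
  have hrange : a ∈ (aeval z : A[X] →ₐ[A] R).range.toSubring := by
    refine (Subring.closure_le.2 ?_) ha
    rintro x (rfl | hx)
    · exact ⟨Polynomial.X, by simp⟩
    · exact ⟨C ⟨x, Subring.subset_closure hx⟩, by simp; rfl⟩
  obtain ⟨f, hf⟩ := hrange
  have hmem : ∀ x : A, Ideal.Quotient.mk P x.1 ∈ S := by
    intro x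
    rw [hS, ← RingHom.map_closure]
    exact ⟨x.1, x.2, rfl⟩
  let g : A →+* S := ((Ideal.Quotient.mk P).comp A.subtype).codRestrict S hmem
  have hg : Function.Injective g := by
    rw [injective_iff_map_eq_zero]
    intro x hx
    have : Ideal.Quotient.mk P x.1 = 0 := congrArg Subtype.val hx
    exact Subtype.ext (hX x.1 x.2 (Ideal.Quotient.eq_zero_iff_mem.1 this))
  have h1 : aeval (Ideal.Quotient.mk P z) (f.map g) = Ideal.Quotient.mk P a := by
    have hf' : aeval z f = a := hf
    rw [← hf', aeval_def, eval₂_map, aeval_def, hom_eval₂]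
    rfl
  rw [Ideal.Quotient.eq_zero_iff_mem.2 haP] at h1
  have h2 : f.map g = 0 := (transcendental_iff.1 hz) _ h1
  have h3 : f = 0 := (Polynomial.map_eq_zero_iff hg).1 h2
  have hf' : aeval z f = a := hf
  rw [← hf', h3, map_zero]

theorem hasDomainModel_of_bigTr {R : Type u} [CommRing R] [Infinite R] (Ps : Finset (Ideal R))
    (hprime : ∀ P ∈ Ps, P.IsPrime)
    (hcover : ∀ x : R, x ∈ nonZeroDivisors R ↔ ∀ P ∈ Ps, x ∉ P)
    (hint : ∀ n : ℤ, (n : R) = 0 ∨ (n : R) ∈ nonZeroDivisors R)
    (hbig : ∀ P ∈ Ps, BigTr (R ⧸ P) #R) : HasDomainModel.{u, u} R := by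
  classical
  obtain ⟨_, hwf, hord⟩ := exists_ord_eq_type_lt (R × nonZeroDivisors R)
  have hcard : #(R × nonZeroDivisors R) ≤ #R := by
    calc #(R × nonZeroDivisors R) = #R * #(nonZeroDivisors R) := by simp
      _ ≤ #R * #R := mul_le_mul_right (mk_subtype_le _) _
      _ = #R := mul_eq_self (aleph0_le_mk R)
  have hsmall : ∀ w : R × nonZeroDivisors R, #(Set.Iio w) < #R := fun w =>
    lt_of_lt_of_le (mk_Iio_lt w hord) hcard
  have hstep : ∀ (w : R × nonZeroDivisors R) (g : Set.Iio w → R), ∃ z : R,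
      (∃ s, z = w.1 + w.2.1 * s) ∧ ∀ P ∈ Ps,
      Transcendental (Subring.closure (Ideal.Quotient.mk P '' Set.range g))
        (Ideal.Quotient.mk P z) := fun w g =>
    exists_step Ps hprime hbig _ (lt_of_le_of_lt mk_range_le (hsmall w)) _ _
      ((hcover _).1 w.2.2)
  choose F hF using hstep
  let x : R × nonZeroDivisors R → R :=
    hwf.wf.fix (fun w ih => F w (fun p => ih p.1 p.2))
  have hx : ∀ w, x w = F w (fun p => x p.1) := fun w => hwf.wf.fix_eq _ w
  have hrange : ∀ w, Set.range (fun p : Set.Iio w => x p.1) = x '' Set.Iio w := fun w => by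
    ext y; simp
  have hfin : ∀ (T : Set (R × nonZeroDivisors R)) (P : Ideal R), P ∈ Ps →
      (∀ w ∈ T, ∀ a ∈ Subring.closure (x '' Set.Iic w), a ∈ P → a = 0) →
      (∀ a ∈ Subring.closure (x '' T), a ∈ P → a = 0) := by
    intro T P hP hT a ha haP
    have hcase : a ∈ (⊥ : Subring R) ∨ ∃ w ∈ T, a ∈ Subring.closure (x '' Set.Iic w) := by
      clear haP
      have hmono : ∀ w w', w ≤ w' →
          Subring.closure (x '' Set.Iic w) ≤ Subring.closure (x '' Set.Iic w') :=
        fun w w' h => Subring.closure_mono (Set.image_mono (Set.Iic_subset_Iic.2 h))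
      have hbin : ∀ (op : R → R → R), (∀ (S : Subring R) a b, a ∈ S → b ∈ S → op a b ∈ S) →
          ∀ a b, (a ∈ (⊥ : Subring R) ∨ ∃ w ∈ T, a ∈ Subring.closure (x '' Set.Iic w)) →
          (b ∈ (⊥ : Subring R) ∨ ∃ w ∈ T, b ∈ Subring.closure (x '' Set.Iic w)) →
          (op a b ∈ (⊥ : Subring R) ∨ ∃ w ∈ T, op a b ∈ Subring.closure (x '' Set.Iic w)) := by
        rintro op hop a b (ha | ⟨w, hw, ha⟩) (hb | ⟨w', hw', hb⟩)
        · exact Or.inl (hop _ _ _ ha hb)
        · exact Or.inr ⟨w', hw', hop _ _ _ (bot_le (a := Subring.closure _) ha) hb⟩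
        · exact Or.inr ⟨w, hw, hop _ _ _ ha (bot_le (a := Subring.closure _) hb)⟩
        · rcases le_total w w' with h | h
          · exact Or.inr ⟨w', hw', hop _ _ _ (hmono _ _ h ha) hb⟩
          · exact Or.inr ⟨w, hw, hop _ _ _ ha (hmono _ _ h hb)⟩
      induction ha using Subring.closure_induction with
      | mem y hy =>
        obtain ⟨w, hw, rfl⟩ := hy
        exact Or.inr ⟨w, hw, Subring.subset_closure ⟨w, le_rfl, rfl⟩⟩
      | zero => exact Or.inl (Subring.zero_mem _)
      | one => exact Or.inl (Subring.one_mem _)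
      | add a b _ _ iha ihb => exact hbin (· + ·) (fun S a b => S.add_mem) a b iha ihb
      | neg a _ iha =>
        rcases iha with h | ⟨w, hw, h⟩
        · exact Or.inl (Subring.neg_mem _ h)
        · exact Or.inr ⟨w, hw, Subring.neg_mem _ h⟩
      | mul a b _ _ iha ihb => exact hbin (· * ·) (fun S a b => S.mul_mem) a b iha ihb
    rcases hcase with h | ⟨w, hw, h⟩
    · obtain ⟨n, rfl⟩ := Subring.mem_bot.1 h
      rcases hint n with h0 | h0
      · exact h0
      · exact absurd haP ((hcover _).1 h0 P hP)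
    · exact hT w hw a h haP
  have hall : ∀ P ∈ Ps, ∀ w, ∀ a ∈ Subring.closure (x '' Set.Iic w), a ∈ P → a = 0 := by
    intro P hP w
    induction w using hwf.wf.induction with
    | _ w ih =>
      have h1 : x '' Set.Iic w = insert (x w) (x '' Set.Iio w) := by
        rw [← Set.Iio_insert, Set.image_insert_eq]
      rw [h1]
      refine inter_trivial_insert P _ _ (hfin _ P hP (fun w' hw' => ih w' hw')) ?_
      have := (hF w (fun p => x p.1)).2 P hP
      rwa [← hx, hrange] at this
  refine hasDomainModel_of_subring' (Subring.closure (x '' Set.univ)) ?_ ?_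
  · intro a ha ha0
    exact (hcover a).2 fun P hP haP =>
      ha0 (hfin Set.univ P hP (fun w _ => hall P hP w) a ha haP)
  · intro t ht r
    obtain ⟨s, hs⟩ := (hF (r, ⟨t, ht⟩) (fun p => x p.1)).1
    rw [← hx] at hs
    refine ⟨x (r, ⟨t, ht⟩), Subring.subset_closure ⟨_, trivial, rfl⟩, -s, ?_⟩
    rw [hs]; ring

end Pool.Agent.MP_f1fec5_al
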