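import Pool.Agent.MP_f1fec5_al.Defs

namespace Pool.Agent.MP_f1fec5_al

open Cardinal

universe u v

/-- A von Staudt frame of ideals over `I`. -/
structure IsFrame {R : Type*} [CommRing R] (I A₁ A₂ A₃ C₂ C₃ : Ideal R) : Prop where
  le1 : I ≤ A₁
  le2 : I ≤ A₂
  le3 : I ≤ A₃
  leC2 : I ≤ C₂
  leC3 : I ≤ C₃
  ind1 : A₁ ⊓ (A₂ ⊔ A₃) ≤ I
  ind2 : A₂ ⊓ (A₁ ⊔ A₃) ≤ I
  ind3 : A₃ ⊓ (A₁ ⊔ A₂) ≤ I
  c2le : C₂ ≤ A₁ ⊔ A₂
  c2a : A₁ ≤ C₂ ⊔ A₂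
  c2b : A₂ ≤ C₂ ⊔ A₁
  c2i : C₂ ⊓ A₂ ≤ I
  c3le : C₃ ≤ A₁ ⊔ A₃
  c3a : A₁ ≤ C₃ ⊔ A₃
  c3i : C₃ ⊓ A₁ ≤ I

/-- The graph of multiplication by `d`. -/
def Gam {R : Type*} [CommRing R] (I A₁ A₂ C₂ : Ideal R) (d : R) : Ideal R where
  carrier := {z | ∃ x ∈ A₁, ∃ y ∈ A₂, x + y ∈ C₂ ∧ z - (x + d * y) ∈ I}
  add_mem' := by
    rintro z z' ⟨x, hx, y, hy, hc, hi⟩ ⟨x', hx', y', hy', hc', hi'⟩
    refine ⟨x + x', A₁.add_mem hx hx', y + y', A₂.add_mem hy hy', ?_, ?_⟩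
    · convert C₂.add_mem hc hc' using 1; ring
    · convert I.add_mem hi hi' using 1; ring
  zero_mem' := ⟨0, A₁.zero_mem, 0, A₂.zero_mem, by simp, by simp⟩
  smul_mem' := by
    rintro r z ⟨x, hx, y, hy, hc, hi⟩
    refine ⟨r * x, A₁.mul_mem_left r hx, r * y, A₂.mul_mem_left r hy, ?_, ?_⟩
    · convert C₂.mul_mem_left r hc using 1; ring
    · convert I.mul_mem_left r hi using 1; simp only [smul_eq_mul]; ring

lemma mem_Gam {R : Type*} [CommRing R] {I A₁ A₂ C₂ : Ideal R} {d z : R} :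
    z ∈ Gam I A₁ A₂ C₂ d ↔ ∃ x ∈ A₁, ∃ y ∈ A₂, x + y ∈ C₂ ∧ z - (x + d * y) ∈ I := Iff.rfl

lemma le_Gam {R : Type*} [CommRing R] (I A₁ A₂ C₂ : Ideal R) (d : R) : I ≤ Gam I A₁ A₂ C₂ d :=
  fun z hz => ⟨0, A₁.zero_mem, 0, A₂.zero_mem, by simp, by simpa using hz⟩

namespace IsFrame

variable {R : Type*} [CommRing R] {I A₁ A₂ A₃ C₂ C₃ : Ideal R} (h : IsFrame I A₁ A₂ A₃ C₂ C₃)
include h

lemma ind {x y w : R} (hx : x ∈ A₁) (hy : y ∈ A₂) (hw : w ∈ A₃) (hs : x + y + w ∈ I) :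
    x ∈ I ∧ y ∈ I ∧ w ∈ I := by
  refine ⟨h.ind1 ⟨hx, ?_⟩, h.ind2 ⟨hy, ?_⟩, h.ind3 ⟨hw, ?_⟩⟩
  · have : x = (x + y + w - y) + (-w) := by ring
    rw [this]
    exact Submodule.add_mem_sup (A₂.sub_mem (h.le2 hs) hy) (A₃.neg_mem hw)
  · have : y = (x + y + w - x) + (-w) := by ring
    rw [this]
    exact Submodule.add_mem_sup (A₁.sub_mem (h.le1 hs) hx) (A₃.neg_mem hw)
  · have : w = (x + y + w - x) + (-y) := by ring
    rw [this]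
    exact Submodule.add_mem_sup (A₁.sub_mem (h.le1 hs) hx) (A₂.neg_mem hy)

lemma exists_x {y : R} (hy : y ∈ A₂) : ∃ x ∈ A₁, x + y ∈ C₂ := by
  obtain ⟨c, hc, x, hx, e⟩ := Submodule.mem_sup.1 (h.c2b hy)
  exact ⟨-x, A₁.neg_mem hx, by convert hc using 1; rw [← e]; ring⟩

lemma Gam_zero : Gam I A₁ A₂ C₂ 0 = A₁ := by
  apply le_antisymm
  · rintro z ⟨x, hx, y, hy, hc, hi⟩
    have : z = (z - (x + 0 * y)) + x := by ring
    rw [this]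
    exact A₁.add_mem (h.le1 hi) hx
  · intro x hx
    obtain ⟨c, hc, y, hy, e⟩ := Submodule.mem_sup.1 (h.c2a hx)
    exact ⟨x, hx, -y, A₂.neg_mem hy, by convert hc using 1; rw [← e]; ring, by simp⟩

lemma Gam_succ (d : R) : Gam I A₁ A₂ C₂ (d + 1) =
    (((Gam I A₁ A₂ C₂ d ⊔ A₃) ⊓ (C₃ ⊔ A₂)) ⊔ ((C₂ ⊔ C₃) ⊓ (A₂ ⊔ A₃))) ⊓ (A₁ ⊔ A₂) := by
  apply le_antisymm
  · rintro z ⟨x, hx, y, hy, hc, hi⟩
    obtain ⟨c, hc3, w, hw, e⟩ := Submodule.mem_sup.1 (h.c3a hx)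
    refine ⟨?_, ?_⟩
    · have e1 : z = ((x + d * y + (z - (x + (d + 1) * y))) + (-w)) + (y + w) := by ring
      rw [SetLike.mem_coe, e1]
      refine Submodule.add_mem_sup ⟨?_, ?_⟩ ⟨?_, ?_⟩
      · refine Submodule.add_mem_sup ⟨x, hx, y, hy, hc, ?_⟩ (A₃.neg_mem hw)
        convert hi using 1; ring
      · have e2 : x + d * y + (z - (x + (d + 1) * y)) + -w
            = c + (d * y + (z - (x + (d + 1) * y))) := by rw [← e]; ring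
        rw [SetLike.mem_coe, e2]
        exact Submodule.add_mem_sup hc3 (A₂.add_mem (A₂.mul_mem_left _ hy) (h.le2 hi))
      · have e2 : y + w = (x + y) + (-c) := by rw [← e]; ring
        rw [SetLike.mem_coe, e2]
        exact Submodule.add_mem_sup hc (C₃.neg_mem hc3)
      · exact Submodule.add_mem_sup hy hw
    · have e1 : z = x + ((d + 1) * y + (z - (x + (d + 1) * y))) := by ring
      rw [SetLike.mem_coe, e1]
      exact Submodule.add_mem_sup hx (A₂.add_mem (A₂.mul_mem_left _ hy) (h.le2 hi))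
  · rintro z ⟨hz1, hz2⟩
    obtain ⟨p, ⟨hp1, hp2⟩, q, ⟨hq1, hq2⟩, rfl⟩ := Submodule.mem_sup.1 hz1
    obtain ⟨g, ⟨x, hx, y, hy, hc, hi⟩, w, hw, e1⟩ := Submodule.mem_sup.1 hp1
    obtain ⟨c, hc3, y', hy', e2⟩ := Submodule.mem_sup.1 hp2
    obtain ⟨x', hx', w', hw', e3⟩ := Submodule.mem_sup.1 (h.c3le hc3)
    obtain ⟨c₂, hc₂, c₃, hc₃, e4⟩ := Submodule.mem_sup.1 hq1
    obtain ⟨y'', hy'', w'', hw'', e5⟩ := Submodule.mem_sup.1 hq2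
    obtain ⟨x₂, hx₂, y₂, hy₂, e6⟩ := Submodule.mem_sup.1 (h.c2le hc₂)
    obtain ⟨x₃, hx₃, w₃, hw₃, e7⟩ := Submodule.mem_sup.1 (h.c3le hc₃)
    obtain ⟨u, hu, v, hv, e8⟩ := Submodule.mem_sup.1 hz2
    obtain ⟨a1, -, a3⟩ := h.ind (A₁.sub_mem hx hx') (A₂.sub_mem (A₂.mul_mem_left d hy) hy')
      (A₃.sub_mem hw hw') (by
        convert I.neg_mem hi using 1
        linear_combination e1 - e2 - e3)
    obtain ⟨b1, b2, b3⟩ := h.ind (A₁.add_mem hx₂ hx₃) (A₂.sub_mem hy₂ hy'')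
      (A₃.sub_mem hw₃ hw'') (by
        convert I.zero_mem using 1
        linear_combination e6 + e7 + e4 - e5)
    obtain ⟨-, -, c3⟩ := h.ind (A₁.sub_mem hx hu)
      (A₂.sub_mem (A₂.add_mem (A₂.mul_mem_left d hy) hy'') hv) (A₃.add_mem hw hw'') (by
        convert I.neg_mem hi using 1
        linear_combination e1 + e5 - e8)
    have d1 : x + x₃ ∈ I := by
      refine h.c3i ⟨?_, A₁.add_mem hx hx₃⟩
      have : x + x₃ = c + c₃ + ((x - x') + (w - w') - (w + w'') - (w₃ - w'')) := by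
        linear_combination e3 + e7
      rw [SetLike.mem_coe, this]
      exact C₃.add_mem (C₃.add_mem hc3 hc₃)
        (h.leC3 (I.sub_mem (I.sub_mem (I.add_mem a1 a3) c3) b3))
    have d2 : y - y₂ ∈ I := by
      refine h.c2i ⟨?_, A₂.sub_mem hy hy₂⟩
      have : y - y₂ = (x + y) - c₂ - ((x + x₃) - (x₂ + x₃)) := by
        linear_combination -e6
      rw [SetLike.mem_coe, this]
      exact C₂.sub_mem (C₂.sub_mem hc hc₂) (h.leC2 (I.sub_mem d1 b1))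
    refine ⟨x, hx, y, hy, hc, ?_⟩
    have : p + q - (x + (d + 1) * y) = (g - (x + d * y)) + (w + w'') - (y₂ - y'') - (y - y₂) := by
      linear_combination -e1 - e5
    rw [this]
    exact I.sub_mem (I.sub_mem (I.add_mem hi c3) b2) d2

lemma mul_mem_E (d : R) {y : R} (hy : y ∈ A₂) : d * y ∈ (Gam I A₁ A₂ C₂ d ⊔ A₁) ⊓ A₂ := by
  obtain ⟨x, hx, hc⟩ := h.exists_x hy
  refine ⟨?_, A₂.mul_mem_left _ hy⟩
  have : d * y = (x + d * y) + (-x) := by ring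
  rw [SetLike.mem_coe, this]
  exact Submodule.add_mem_sup ⟨x, hx, y, hy, hc, by simp⟩ (A₁.neg_mem hx)

lemma of_mem_E (d : R) {z : R} (hz : z ∈ (Gam I A₁ A₂ C₂ d ⊔ A₁) ⊓ A₂) :
    ∃ y ∈ A₂, z - d * y ∈ I := by
  obtain ⟨hz1, hz2⟩ := hz
  obtain ⟨g, ⟨x, hx, y, hy, hc, hi⟩, x', hx', e⟩ := Submodule.mem_sup.1 hz1
  obtain ⟨-, a2, -⟩ := h.ind (A₁.neg_mem (A₁.add_mem hx hx'))
    (A₂.sub_mem hz2 (A₂.mul_mem_left d hy)) A₃.zero_mem (by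
      convert hi using 1
      linear_combination -e)
  exact ⟨y, hy, a2⟩

lemma Gam_inj {d e : R} (hde : Gam I A₁ A₂ C₂ d = Gam I A₁ A₂ C₂ e) {y : R} (hy : y ∈ A₂) :
    (d - e) * y ∈ I := by
  obtain ⟨x, hx, hc⟩ := h.exists_x hy
  have h1 : x + d * y ∈ Gam I A₁ A₂ C₂ e := hde ▸ ⟨x, hx, y, hy, hc, by simp⟩
  obtain ⟨x', hx', y', hy', hc', hi⟩ := h1
  obtain ⟨a1, a2, -⟩ := h.ind (A₁.sub_mem hx hx')
    (A₂.sub_mem (A₂.mul_mem_left d hy) (A₂.mul_mem_left e hy')) A₃.zero_mem (by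
      convert hi using 1; ring)
  have d2 : y - y' ∈ I := by
    refine h.c2i ⟨?_, A₂.sub_mem hy hy'⟩
    have : y - y' = (x + y) - (x' + y') - (x - x') := by ring
    rw [SetLike.mem_coe, this]
    exact C₂.sub_mem (C₂.sub_mem hc hc') (h.leC2 a1)
  have : (d - e) * y = (d * y - e * y') - e * (y - y') := by ring
  rw [this]
  exact I.sub_mem a2 (I.mul_mem_left _ d2)

end IsFrame

/-- an ideal is regular -/
def Reg {R : Type*} [CommRing R] (X : Ideal R) : Prop := ∃ x ∈ X, x ∈ nonZeroDivisors R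

lemma Reg.mono {R : Type*} [CommRing R] {X Y : Ideal R} (h : Reg X) (hXY : X ≤ Y) : Reg Y :=
  let ⟨x, hx, hx'⟩ := h
  ⟨x, hXY hx, hx'⟩

lemma Reg.mul {R : Type*} [CommRing R] {X Y : Ideal R} (hX : Reg X) (hY : Reg Y) :
    Reg (X * Y) :=
  let ⟨x, hx, hx'⟩ := hX
  let ⟨y, hy, hy'⟩ := hY
  ⟨x * y, Ideal.mul_mem_mul hx hy, mul_mem hx' hy'⟩

lemma Reg.inf {R : Type*} [CommRing R] {X Y : Ideal R} (hX : Reg X) (hY : Reg Y) :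
    Reg (X ⊓ Y) := (hX.mul hY).mono Ideal.mul_le_inf

lemma IsFrame.reg_E {R : Type*} [CommRing R] {I A₁ A₂ A₃ C₂ C₃ : Ideal R}
    (h : IsFrame I A₁ A₂ A₃ C₂ C₃) (hI : Reg I) (d : R) :
    Reg ((Gam I A₁ A₂ C₂ d ⊔ A₁) ⊓ A₂) :=
  hI.mono (le_inf ((le_Gam _ _ _ _ d).trans le_sup_left) h.le2)

/-- A convenient form of a multiplicative lattice isomorphism. -/
structure Model (R : Type u) (D : Type v) [CommRing R] [CommRing D] where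
  F : Ideal R → Ideal D
  le_iff : ∀ {X Y}, Reg X → Reg Y → (F X ≤ F Y ↔ X ≤ Y)
  map_mul : ∀ {X Y}, Reg X → Reg Y → F (X * Y) = F X * F Y
  ne_bot : ∀ {X}, Reg X → F X ≠ ⊥
  surj : ∀ Z, Z ≠ ⊥ → ∃ X, Reg X ∧ F X = Z

lemma HasDomainModel.exists_model {R : Type u} [CommRing R] [Nontrivial R]
    (h : HasDomainModel.{u, v} R) :
    ∃ (D : Type v) (_ : CommRing D) (_ : IsDomain D), Nonempty (Model R D) := by
  classical
  obtain ⟨D, _, _, φ, hφ⟩ := h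
  have hbot : φ ⟨⊥, Or.inl rfl⟩ = ⊥ := by
    rw [eq_bot_iff]
    have : (⟨⊥, Or.inl rfl⟩ : RegIdeal R) ≤ φ.symm ⊥ := (bot_le : (⊥ : Ideal R) ≤ _)
    simpa using φ.monotone this
  have hF : ∀ {X : Ideal R} (hX : Reg X),
      (if hX : Reg X then φ ⟨X, Or.inr hX⟩ else ⊥) = φ ⟨X, Or.inr hX⟩ := fun hX => dif_pos hX
  refine ⟨D, inferInstance, inferInstance,
    ⟨⟨fun X => if hX : Reg X then φ ⟨X, Or.inr hX⟩ else ⊥, ?_, ?_, ?_, ?_⟩⟩⟩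
  · intro X Y hX hY
    rw [hF hX, hF hY, φ.le_iff_le]
    rfl
  · intro X Y hX hY
    rw [hF hX, hF hY, hF (hX.mul hY)]
    exact hφ _ _ _ rfl
  · intro X hX
    rw [hF hX, ← hbot]
    intro he
    have h1 : X = ⊥ := congrArg Subtype.val (φ.injective he)
    obtain ⟨x, hx, hx'⟩ := hX
    rw [h1, Ideal.mem_bot] at hx
    exact nonZeroDivisors.ne_zero hx' hx
  · intro Z hZ
    rcases (φ.symm Z).2 with h1 | h1
    · exfalso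
      apply hZ
      have : φ.symm Z = ⟨⊥, Or.inl rfl⟩ := Subtype.ext h1
      rw [← hbot, ← this]
      simp
    · refine ⟨(φ.symm Z).1, h1, ?_⟩
      rw [hF h1]
      exact φ.apply_symm_apply Z

namespace Model

variable {R : Type u} {D : Type v} [CommRing R] [CommRing D] (m : Model R D)

lemma mono {X Y : Ideal R} (hX : Reg X) (h : X ≤ Y) : m.F X ≤ m.F Y :=
  (m.le_iff hX (hX.mono h)).2 h

lemma inj {X Y : Ideal R} (hX : Reg X) (hY : Reg Y) (h : m.F X = m.F Y) : X = Y :=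
  le_antisymm ((m.le_iff hX hY).1 h.le) ((m.le_iff hY hX).1 h.ge)

lemma map_sup {X Y : Ideal R} (hX : Reg X) (hY : Reg Y) : m.F (X ⊔ Y) = m.F X ⊔ m.F Y := by
  refine le_antisymm ?_ (sup_le (m.mono hX le_sup_left) (m.mono hY le_sup_right))
  obtain ⟨Z, hZ, e⟩ := m.surj (m.F X ⊔ m.F Y) (fun h => m.ne_bot hX (eq_bot_iff.2 (h ▸ le_sup_left)))
  rw [← e]
  refine m.mono (hX.mono le_sup_left) (sup_le ?_ ?_)
  · exact (m.le_iff hX hZ).1 (e ▸ le_sup_left)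
  · exact (m.le_iff hY hZ).1 (e ▸ le_sup_right)

lemma map_inf {X Y : Ideal R} (hX : Reg X) (hY : Reg Y) : m.F (X ⊓ Y) = m.F X ⊓ m.F Y := by
  have h1 : m.F (X ⊓ Y) ≤ m.F X ⊓ m.F Y :=
    le_inf (m.mono (hX.inf hY) inf_le_left) (m.mono (hX.inf hY) inf_le_right)
  refine le_antisymm h1 ?_
  obtain ⟨Z, hZ, e⟩ := m.surj (m.F X ⊓ m.F Y)
    (fun h => m.ne_bot (hX.inf hY) (eq_bot_iff.2 (h ▸ h1)))
  rw [← e]
  refine m.mono hZ (le_inf ?_ ?_)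
  · exact (m.le_iff hZ hX).1 (e ▸ inf_le_left)
  · exact (m.le_iff hZ hY).1 (e ▸ inf_le_right)

variable {I A₁ A₂ A₃ C₂ C₃ : Ideal R}

lemma frame (h : IsFrame I A₁ A₂ A₃ C₂ C₃) (hI : Reg I) :
    IsFrame (m.F I) (m.F A₁) (m.F A₂) (m.F A₃) (m.F C₂) (m.F C₃) := by
  have r1 := hI.mono h.le1
  have r2 := hI.mono h.le2
  have r3 := hI.mono h.le3
  have s2 := hI.mono h.leC2
  have s3 := hI.mono h.leC3
  have t1 : ∀ {X Y Z : Ideal R}, Reg X → Reg Y → Reg Z → X ⊓ (Y ⊔ Z) ≤ I →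
      m.F X ⊓ (m.F Y ⊔ m.F Z) ≤ m.F I := by
    intro X Y Z hX hY hZ hle
    rw [← m.map_sup hY hZ, ← m.map_inf hX (hY.mono le_sup_left)]
    exact m.mono (hX.inf (hY.mono le_sup_left)) hle
  have t2 : ∀ {X Y Z : Ideal R}, Reg X → Reg Y → Reg Z → X ≤ Y ⊔ Z →
      m.F X ≤ m.F Y ⊔ m.F Z := by
    intro X Y Z hX hY hZ hle
    rw [← m.map_sup hY hZ]
    exact m.mono hX hle
  have t3 : ∀ {X Y : Ideal R}, Reg X → Reg Y → X ⊓ Y ≤ I → m.F X ⊓ m.F Y ≤ m.F I := by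
    intro X Y hX hY hle
    rw [← m.map_inf hX hY]
    exact m.mono (hX.inf hY) hle
  exact ⟨m.mono hI h.le1, m.mono hI h.le2, m.mono hI h.le3, m.mono hI h.leC2, m.mono hI h.leC3,
    t1 r1 r2 r3 h.ind1, t1 r2 r1 r3 h.ind2, t1 r3 r1 r2 h.ind3, t2 s2 r1 r2 h.c2le,
    t2 r1 s2 r2 h.c2a, t2 r2 s2 r1 h.c2b, t3 s2 r2 h.c2i, t2 s3 r1 r3 h.c3le,
    t2 r1 s3 r3 h.c3a, t3 s3 r1 h.c3i⟩

lemma map_Gam (h : IsFrame I A₁ A₂ A₃ C₂ C₃) (hI : Reg I) (n : ℕ) :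
    m.F (Gam I A₁ A₂ C₂ n) = Gam (m.F I) (m.F A₁) (m.F A₂) (m.F C₂) n := by
  have r1 := hI.mono h.le1
  have r2 := hI.mono h.le2
  have r3 := hI.mono h.le3
  have s2 := hI.mono h.leC2
  have s3 := hI.mono h.leC3
  induction n with
  | zero => simp only [Nat.cast_zero]; rw [h.Gam_zero, (m.frame h hI).Gam_zero]
  | succ n ih =>
    have g : Reg (Gam I A₁ A₂ C₂ n) := hI.mono (le_Gam _ _ _ _ _)
    have u1 : Reg (Gam I A₁ A₂ C₂ n ⊔ A₃) := g.mono le_sup_left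
    have u2 : Reg (C₃ ⊔ A₂) := s3.mono le_sup_left
    have u3 : Reg (C₂ ⊔ C₃) := s2.mono le_sup_left
    have u4 : Reg (A₂ ⊔ A₃) := r2.mono le_sup_left
    have u5 : Reg (A₁ ⊔ A₂) := r1.mono le_sup_left
    simp only [Nat.cast_succ]
    rw [h.Gam_succ, (m.frame h hI).Gam_succ, ← ih,
      m.map_inf ((u1.inf u2).mono le_sup_left) u5, m.map_sup (u1.inf u2) (u3.inf u4),
      m.map_inf u1 u2, m.map_inf u3 u4, m.map_sup g r3, m.map_sup s3 r2, m.map_sup s2 s3,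
      m.map_sup r2 r3, m.map_sup r1 r2]

lemma map_E (h : IsFrame I A₁ A₂ A₃ C₂ C₃) (hI : Reg I) (n : ℕ) :
    m.F ((Gam I A₁ A₂ C₂ n ⊔ A₁) ⊓ A₂)
      = (Gam (m.F I) (m.F A₁) (m.F A₂) (m.F C₂) n ⊔ m.F A₁) ⊓ m.F A₂ := by
  have g : Reg (Gam I A₁ A₂ C₂ n) := hI.mono (le_Gam _ _ _ _ _)
  rw [m.map_inf (g.mono le_sup_left) (hI.mono h.le2), m.map_sup g (hI.mono h.le1),
    m.map_Gam h hI]

end Model

/-- Three elements all of whose linear relations have coefficients in `q`. -/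
def Indep {R : Type*} [CommRing R] (q : Ideal R) (e₁ e₂ e₃ : R) : Prop :=
  ∀ r₁ r₂ r₃ : R, r₁ * e₁ + r₂ * e₂ + r₃ * e₃ = 0 → r₁ ∈ q ∧ r₂ ∈ q ∧ r₃ ∈ q

/-- the ideal `q (e₁, e₂, e₃)` -/
def Iq {R : Type*} [CommRing R] (q : Ideal R) (e₁ e₂ e₃ : R) : Ideal R where
  carrier := {z | ∃ s₁ ∈ q, ∃ s₂ ∈ q, ∃ s₃ ∈ q, z = s₁ * e₁ + s₂ * e₂ + s₃ * e₃}
  add_mem' := by
    rintro _ _ ⟨s₁, h₁, s₂, h₂, s₃, h₃, rfl⟩ ⟨t₁, k₁, t₂, k₂, t₃, k₃, rfl⟩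
    exact ⟨s₁ + t₁, q.add_mem h₁ k₁, s₂ + t₂, q.add_mem h₂ k₂, s₃ + t₃, q.add_mem h₃ k₃, by ring⟩
  zero_mem' := ⟨0, q.zero_mem, 0, q.zero_mem, 0, q.zero_mem, by ring⟩
  smul_mem' := by
    rintro r _ ⟨s₁, h₁, s₂, h₂, s₃, h₃, rfl⟩
    exact ⟨r * s₁, q.mul_mem_left r h₁, r * s₂, q.mul_mem_left r h₂, r * s₃, q.mul_mem_left r h₃,
      by simp only [smul_eq_mul]; ring⟩

/-- the ideal generated by `e` over `I` -/
def Ad {R : Type*} [CommRing R] (I : Ideal R) (e : R) : Ideal R := Ideal.span {e} ⊔ I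

lemma mem_Ad {R : Type*} [CommRing R] {I : Ideal R} {e z : R} :
    z ∈ Ad I e ↔ ∃ r, z - r * e ∈ I := by
  unfold Ad
  rw [Ideal.mem_span_singleton_sup]
  constructor
  · rintro ⟨r, i, hi, rfl⟩
    exact ⟨r, by simpa using hi⟩
  · rintro ⟨r, hr⟩
    exact ⟨r, _, hr, by ring⟩

lemma mem_Ad_sup {R : Type*} [CommRing R] {I : Ideal R} {e f z : R} :
    z ∈ Ad I e ⊔ Ad I f ↔ ∃ r s, z - (r * e + s * f) ∈ I := by
  rw [Submodule.mem_sup]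
  constructor
  · rintro ⟨x, hx, y, hy, rfl⟩
    obtain ⟨r, hr⟩ := mem_Ad.1 hx
    obtain ⟨s, hs⟩ := mem_Ad.1 hy
    exact ⟨r, s, by convert I.add_mem hr hs using 1; ring⟩
  · rintro ⟨r, s, h⟩
    exact ⟨r * e, mem_Ad.2 ⟨r, by simp⟩, z - r * e, mem_Ad.2 ⟨s, by convert h using 1; ring⟩,
      by ring⟩

namespace Indep

variable {R : Type*} [CommRing R] {q : Ideal R} {e₁ e₂ e₃ : R} (h : Indep q e₁ e₂ e₃)
include h

lemma mem_iff {r₁ r₂ r₃ : R} :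
    r₁ * e₁ + r₂ * e₂ + r₃ * e₃ ∈ Iq q e₁ e₂ e₃ ↔ r₁ ∈ q ∧ r₂ ∈ q ∧ r₃ ∈ q := by
  constructor
  · rintro ⟨s₁, h₁, s₂, h₂, s₃, h₃, e⟩
    obtain ⟨a, b, c⟩ := h (r₁ - s₁) (r₂ - s₂) (r₃ - s₃) (by linear_combination e)
    exact ⟨by simpa using q.add_mem a h₁, by simpa using q.add_mem b h₂,
      by simpa using q.add_mem c h₃⟩
  · rintro ⟨h₁, h₂, h₃⟩
    exact ⟨r₁, h₁, r₂, h₂, r₃, h₃, rfl⟩

/-- If `z` is congruent to two combinations then the coefficients are congruent. -/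
lemma cmp {z r₁ r₂ r₃ s₁ s₂ s₃ : R} (h1 : z - (r₁ * e₁ + r₂ * e₂ + r₃ * e₃) ∈ Iq q e₁ e₂ e₃)
    (h2 : z - (s₁ * e₁ + s₂ * e₂ + s₃ * e₃) ∈ Iq q e₁ e₂ e₃) :
    r₁ - s₁ ∈ q ∧ r₂ - s₂ ∈ q ∧ r₃ - s₃ ∈ q := by
  rw [← h.mem_iff]
  convert Ideal.sub_mem _ h2 h1 using 1
  ring

lemma mem_of {z r₁ r₂ r₃ : R} (h1 : z - (r₁ * e₁ + r₂ * e₂ + r₃ * e₃) ∈ Iq q e₁ e₂ e₃)
    (a : r₁ ∈ q) (b : r₂ ∈ q) (c : r₃ ∈ q) : z ∈ Iq q e₁ e₂ e₃ := by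
  simpa using Ideal.add_mem _ h1 (h.mem_iff.2 ⟨a, b, c⟩)

lemma frame : IsFrame (Iq q e₁ e₂ e₃) (Ad (Iq q e₁ e₂ e₃) e₁) (Ad (Iq q e₁ e₂ e₃) e₂)
    (Ad (Iq q e₁ e₂ e₃) e₃) (Ad (Iq q e₁ e₂ e₃) (e₁ + e₂)) (Ad (Iq q e₁ e₂ e₃) (e₁ + e₃)) := by
  refine ⟨le_sup_right, le_sup_right, le_sup_right, le_sup_right, le_sup_right,
    ?_, ?_, ?_, ?_, ?_, ?_, ?_, ?_, ?_, ?_⟩
  · rintro z ⟨h1, h2⟩
    obtain ⟨r, hr⟩ := mem_Ad.1 h1
    obtain ⟨s, t, hs⟩ := mem_Ad_sup.1 h2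
    have hr' : z - (r * e₁ + 0 * e₂ + 0 * e₃) ∈ Iq q e₁ e₂ e₃ := by simpa using hr
    have := h.cmp hr' (s₁ := 0) (s₂ := s) (s₃ := t) (by simpa using hs)
    exact h.mem_of hr' (by simpa using this.1) q.zero_mem q.zero_mem
  · rintro z ⟨h1, h2⟩
    obtain ⟨r, hr⟩ := mem_Ad.1 h1
    obtain ⟨s, t, hs⟩ := mem_Ad_sup.1 h2
    have hr' : z - (0 * e₁ + r * e₂ + 0 * e₃) ∈ Iq q e₁ e₂ e₃ := by simpa using hr
    have := h.cmp hr' (s₁ := s) (s₂ := 0) (s₃ := t) (by simpa using hs)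
    exact h.mem_of hr' q.zero_mem (by simpa using this.2.1) q.zero_mem
  · rintro z ⟨h1, h2⟩
    obtain ⟨r, hr⟩ := mem_Ad.1 h1
    obtain ⟨s, t, hs⟩ := mem_Ad_sup.1 h2
    have hr' : z - (0 * e₁ + 0 * e₂ + r * e₃) ∈ Iq q e₁ e₂ e₃ := by simpa using hr
    have := h.cmp hr' (s₁ := s) (s₂ := t) (s₃ := 0) (by simpa using hs)
    exact h.mem_of hr' q.zero_mem q.zero_mem (by simpa using this.2.2)
  · intro z hz
    obtain ⟨r, hr⟩ := mem_Ad.1 hz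
    exact mem_Ad_sup.2 ⟨r, r, by convert hr using 1; ring⟩
  · intro z hz
    obtain ⟨r, hr⟩ := mem_Ad.1 hz
    exact mem_Ad_sup.2 ⟨r, -r, by convert hr using 1; ring⟩
  · intro z hz
    obtain ⟨r, hr⟩ := mem_Ad.1 hz
    exact mem_Ad_sup.2 ⟨r, -r, by convert hr using 1; ring⟩
  · rintro z ⟨h1, h2⟩
    obtain ⟨r, hr⟩ := mem_Ad.1 h1
    obtain ⟨s, hs⟩ := mem_Ad.1 h2
    have hs' : z - (0 * e₁ + s * e₂ + 0 * e₃) ∈ Iq q e₁ e₂ e₃ := by simpa using hs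
    have := h.cmp hs' (s₁ := r) (s₂ := r) (s₃ := 0) (by convert hr using 1; ring)
    refine h.mem_of hs' q.zero_mem ?_ q.zero_mem
    simpa using q.sub_mem this.2.1 this.1
  · intro z hz
    obtain ⟨r, hr⟩ := mem_Ad.1 hz
    exact mem_Ad_sup.2 ⟨r, r, by convert hr using 1; ring⟩
  · intro z hz
    obtain ⟨r, hr⟩ := mem_Ad.1 hz
    exact mem_Ad_sup.2 ⟨r, -r, by convert hr using 1; ring⟩
  · rintro z ⟨h1, h2⟩
    obtain ⟨r, hr⟩ := mem_Ad.1 h1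
    obtain ⟨s, hs⟩ := mem_Ad.1 h2
    have hs' : z - (s * e₁ + 0 * e₂ + 0 * e₃) ∈ Iq q e₁ e₂ e₃ := by simpa using hs
    have := h.cmp hs' (s₁ := r) (s₂ := 0) (s₃ := r) (by convert hr using 1; ring)
    refine h.mem_of hs' ?_ q.zero_mem q.zero_mem
    simpa using q.sub_mem this.1 this.2.2

lemma coeff2 {r : R} (hr : r * e₂ ∈ Iq q e₁ e₂ e₃) : r ∈ q :=
  (h.mem_iff (r₁ := 0) (r₂ := r) (r₃ := 0)).1 (by simpa using hr) |>.2.1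

end Indep

lemma self_mem_Ad {R : Type*} [CommRing R] (I : Ideal R) (e : R) : e ∈ Ad I e :=
  mem_Ad.2 ⟨1, by simp⟩

namespace Model

variable {R : Type u} {D : Type v} [CommRing R] [CommRing D] (m : Model R D)
variable {q : Ideal R} {e₁ e₂ e₃ : R}

include m in
/-- If `n` vanishes in the model then `n ∈ q`. -/
lemma natCast_mem (h : Indep q e₁ e₂ e₃) (hI : Reg (Iq q e₁ e₂ e₃)) (n : ℕ) (hn : (n : D) = 0) :
    (n : R) ∈ q := by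
  have hf := h.frame
  have hE := m.map_E hf hI n
  have hreg := hf.reg_E hI (n : R)
  have hle := (m.le_iff hreg hI).1 (by
    rw [hE]
    intro z hz
    obtain ⟨y, _, hy⟩ := (m.frame hf hI).of_mem_E _ hz
    simpa [hn] using hy)
  exact h.coeff2 (hle (hf.mul_mem_E _ (self_mem_Ad _ _)))

/-- The ideal corresponding to `nD` lies in `nR + q`. -/
lemma le_natCast_sup (h : Indep q e₁ e₂ e₃) (hI : Reg (Iq q e₁ e₂ e₃)) (n : ℕ) {J : Ideal R}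
    (hJ : Reg J) (hJn : m.F J = Ideal.span {(n : D)}) : J ≤ Ideal.span {(n : R)} ⊔ q := by
  have hf := h.frame
  have hE := m.map_E hf hI n
  have hreg := hf.reg_E hI (n : R)
  have hA := hI.mono hf.le2
  have hle := (m.le_iff (hJ.mul hA) hreg).1 (by
    rw [hE, m.map_mul hJ hA, hJn, Ideal.span_singleton_mul_le_iff]
    intro y hy
    exact (m.frame hf hI).mul_mem_E _ hy)
  intro j hj
  obtain ⟨y, hy, hy'⟩ := hf.of_mem_E _ (hle (Ideal.mul_mem_mul hj (self_mem_Ad _ _)))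
  obtain ⟨r, hr⟩ := mem_Ad.1 hy
  have h1 : j - r * n ∈ q := by
    apply h.coeff2
    convert Ideal.add_mem _ hy' (Ideal.mul_mem_left _ (n : R) hr) using 1
    ring
  exact Ideal.mem_span_singleton_sup.2 ⟨r, _, h1, by ring⟩

/-- The quotient of the model is no larger than the set of ideals over `I`. -/
lemma card_quot_le (h : Indep q e₁ e₂ e₃) (hI : Reg (Iq q e₁ e₂ e₃)) :
    lift.{u} #(D ⧸ m.F q) ≤ lift.{v} #{X : Ideal R // Iq q e₁ e₂ e₃ ≤ X} := by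
  have hf := h.frame
  have hf' := m.frame hf hI
  have hIq : Iq q e₁ e₂ e₃ ≤ q := by
    rintro _ ⟨s₁, h₁, s₂, h₂, s₃, h₃, rfl⟩
    exact q.add_mem (q.add_mem (q.mul_mem_right _ h₁) (q.mul_mem_right _ h₂))
      (q.mul_mem_right _ h₃)
  have hq := hI.mono hIq
  have hA := hI.mono hf.le2
  have hex : ∀ d : D, ∃ X : {X : Ideal R // Iq q e₁ e₂ e₃ ≤ X}, m.F X.1 =
      Gam (m.F (Iq q e₁ e₂ e₃)) (m.F (Ad (Iq q e₁ e₂ e₃) e₁)) (m.F (Ad (Iq q e₁ e₂ e₃) e₂))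
        (m.F (Ad (Iq q e₁ e₂ e₃) (e₁ + e₂))) d := by
    intro d
    obtain ⟨X, hX, e⟩ := m.surj _ (fun hb => m.ne_bot hI (eq_bot_iff.2 (hb ▸ le_Gam
      (m.F (Iq q e₁ e₂ e₃)) (m.F (Ad (Iq q e₁ e₂ e₃) e₁)) (m.F (Ad (Iq q e₁ e₂ e₃) e₂))
        (m.F (Ad (Iq q e₁ e₂ e₃) (e₁ + e₂))) d)))
    exact ⟨⟨X, (m.le_iff hI hX).1 (e ▸ le_Gam _ _ _ _ _)⟩, e⟩
  choose G hG using hex
  refine lift_mk_le_lift_mk_of_injective (f := fun c : D ⧸ m.F q => G c.out) ?_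
  intro c c' hc
  have h1 := (hG c.out).symm.trans ((congrArg (fun X => m.F X.1) hc).trans (hG c'.out))
  have h2 : c.out - c'.out ∈ m.F q := by
    by_cases h0 : c.out - c'.out = 0
    · rw [h0]; exact Ideal.zero_mem _
    obtain ⟨Z, hZ, e⟩ := m.surj (Ideal.span {c.out - c'.out}) (by simpa using h0)
    have h3 := (m.le_iff (hZ.mul hA) hI).1 (by
      rw [m.map_mul hZ hA, e, Ideal.span_singleton_mul_le_iff]
      intro y hy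
      exact hf'.Gam_inj h1 hy)
    have h4 : Z ≤ q := fun z hz => h.coeff2 (h3 (Ideal.mul_mem_mul hz (self_mem_Ad _ _)))
    exact m.mono hZ h4 (e ▸ Ideal.mem_span_singleton_self _)
  rw [← Ideal.Quotient.mk_out c, ← Ideal.Quotient.mk_out c']
  exact Ideal.Quotient.eq.2 h2

include m in
/-- The quotient by `q` is no larger than the set of ideals of the model. -/
lemma card_quot_le' (h : Indep q e₁ e₂ e₃) (hI : Reg (Iq q e₁ e₂ e₃)) :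
    lift.{v} #(R ⧸ q) ≤ lift.{u} #(Ideal D) := by
  have hf := h.frame
  refine lift_mk_le_lift_mk_of_injective (f := fun c : R ⧸ q => m.F (Gam (Iq q e₁ e₂ e₃)
    (Ad (Iq q e₁ e₂ e₃) e₁) (Ad (Iq q e₁ e₂ e₃) e₂) (Ad (Iq q e₁ e₂ e₃) (e₁ + e₂)) c.out)) ?_
  intro c c' hc
  have h1 := m.inj (hI.mono (le_Gam _ _ _ _ _)) (hI.mono (le_Gam _ _ _ _ _)) hc
  have h2 := h.coeff2 (hf.Gam_inj h1 (self_mem_Ad _ _))
  rw [← Ideal.Quotient.mk_out c, ← Ideal.Quotient.mk_out c']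
  exact Ideal.Quotient.eq.2 h2

include m in
lemma isNoetherianRing [IsNoetherianRing R] : IsNoetherianRing D := by
  rw [isNoetherianRing_iff, isNoetherian_iff']
  rw [wellFoundedGT_iff_monotone_chain_condition]
  intro a
  by_cases hb : ∀ n, a n = ⊥
  · exact ⟨0, fun k _ => by rw [hb, hb]⟩
  push Not at hb
  obtain ⟨n₀, hn₀⟩ := hb
  have hne : ∀ k, a (n₀ + k) ≠ ⊥ := fun k hk =>
    hn₀ (eq_bot_iff.2 (hk ▸ a.monotone (Nat.le_add_right _ _)))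
  choose X hX hX' using fun k => m.surj _ (hne k)
  let b : ℕ →o Ideal R := ⟨X, fun i j hij => (m.le_iff (hX i) (hX j)).1 (by
    rw [hX', hX']; exact a.monotone (by omega))⟩
  obtain ⟨n, hn⟩ := (wellFoundedGT_iff_monotone_chain_condition.1
    (inferInstance : WellFoundedGT (Ideal R))) b
  refine ⟨n₀ + n, fun k hk => ?_⟩
  obtain ⟨l, rfl⟩ : ∃ l, k = n₀ + l := ⟨k - n₀, by omega⟩
  rw [← hX', ← hX']
  exact congrArg m.F (hn l (by omega))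

end Model

end Pool.Agent.MP_f1fec5_al
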