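import Pool.Agent.MP_f1fec5_al.Frame
import Pool.Agent.MP_f1fec5_al.Dense

namespace Pool.Agent.MP_f1fec5_al

open Cardinal IsLocalRing

universe u v

section Local

variable {T : Type u} [CommRing T] [IsLocalRing T] [IsNoetherianRing T]

/-- ideals are closed -/
lemma mem_of_forall_mem_sup (J : Ideal T) {x : T} (h : ∀ n : ℕ, x ∈ J ⊔ maximalIdeal T ^ n) :
    x ∈ J := by
  have h1 := Ideal.iInf_pow_smul_eq_bot_of_isLocalRing (M := T ⧸ J) (maximalIdeal T)
    (maximalIdeal.isMaximal T).ne_top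
  have h2 : Ideal.Quotient.mk J x ∈ (⨅ i : ℕ, maximalIdeal T ^ i • ⊤ : Submodule T (T ⧸ J)) := by
    rw [Submodule.mem_iInf]
    intro n
    obtain ⟨j, hj, y, hy, rfl⟩ := Submodule.mem_sup.1 (h n)
    rw [map_add, Ideal.Quotient.eq_zero_iff_mem.2 hj, zero_add]
    have : Ideal.Quotient.mk J y = y • (1 : T ⧸ J) := by
      rw [Algebra.smul_def, mul_one]; rfl
    rw [this]
    exact Submodule.smul_mem_smul hy trivial
  rw [h1, Submodule.mem_bot] at h2
  exact Ideal.Quotient.eq_zero_iff_mem.1 h2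

omit [IsNoetherianRing T] in
lemma exists_limit [IsAdicComplete (maximalIdeal T) T] (f : ℕ → T)
    (hf : ∀ n, f (n + 1) - f n ∈ maximalIdeal T ^ n) :
    ∃ L, ∀ n, L - f n ∈ maximalIdeal T ^ n := by
  have h1 : ∀ m k, f (m + k) - f m ∈ maximalIdeal T ^ m := by
    intro m k
    induction k with
    | zero => simp
    | succ k ih =>
      have := Ideal.pow_le_pow_right (I := maximalIdeal T) (Nat.le_add_right m k) (hf (m + k))
      have h2 := Ideal.add_mem _ this ih
      simpa [← add_assoc] using h2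
  obtain ⟨L, hL⟩ := IsPrecomplete.prec (I := maximalIdeal T) (M := T) inferInstance (f := f) (by
    intro m n hmn
    obtain ⟨k, rfl⟩ := Nat.exists_eq_add_of_le hmn
    rw [SModEq.sub_mem, smul_eq_mul, Ideal.mul_top, ← neg_sub]
    exact neg_mem (h1 m k))
  refine ⟨L, fun n => ?_⟩
  have := hL n
  rw [SModEq.sub_mem, smul_eq_mul, Ideal.mul_top, ← neg_sub] at this
  exact neg_mem_iff.1 this

/-- Chevalley's lemma. -/
lemma chevalley [IsAdicComplete (maximalIdeal T) T] (N : ℕ → Ideal T) (hN : Antitone N)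
    (h0 : ∀ x, (∀ k, x ∈ N k) → x = 0) (m : ℕ) : ∃ k, N k ≤ maximalIdeal T ^ m := by
  have hstab : ∀ s : ℕ, ∃ k, ∀ l, k ≤ l →
      N k ⊔ maximalIdeal T ^ s = N l ⊔ maximalIdeal T ^ s := by
    intro s
    rcases Nat.eq_zero_or_pos s with rfl | hs
    · exact ⟨0, fun l _ => by simp⟩
    have hart : IsArtinianRing (T ⧸ maximalIdeal T ^ s) := by
      apply IsLocalRing.quotient_artinian_of_mem_minimalPrimes_of_isLocalRing
      refine ⟨⟨inferInstance, Ideal.pow_le_self hs.ne'⟩, fun Q hQ _ => ?_⟩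
      have := hQ.1
      exact Ideal.IsPrime.le_of_pow_le hQ.2
    let qs : ℕ →o (Ideal (T ⧸ maximalIdeal T ^ s))ᵒᵈ :=
      { toFun n := (N n).map (Ideal.Quotient.mk _)
        monotone' i j e := Ideal.map_mono (hN e) }
    obtain ⟨n, hn⟩ := IsArtinian.monotone_stabilizes qs
    refine ⟨n, fun l hl => ?_⟩
    have := congrArg (Ideal.comap (Ideal.Quotient.mk (maximalIdeal T ^ s))) (hn l hl)
    simpa only [qs, OrderHom.coe_mk, ← RingHom.ker_eq_comap_bot, Ideal.mk_ker,
      Ideal.comap_map_of_surjective _ Ideal.Quotient.mk_surjective] using this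
  choose κ hκ using hstab
  let L : ℕ → Ideal T := fun s => N (κ s) ⊔ maximalIdeal T ^ s
  have hL : ∀ s, ∀ x ∈ L s, ∃ y ∈ L (s + 1), y - x ∈ maximalIdeal T ^ s := by
    intro s x hx
    have e1 := hκ s (max (κ s) (κ (s + 1))) (le_max_left _ _)
    have e2 := hκ (s + 1) (max (κ s) (κ (s + 1))) (le_max_right _ _)
    simp only [L] at hx ⊢
    rw [e1] at hx
    obtain ⟨y, hy, z, hz, rfl⟩ := Submodule.mem_sup.1 hx
    refine ⟨y, ?_, by simpa using hz⟩
    rw [e2]
    exact Ideal.mem_sup_left hy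
  have hLN : ∀ s k, L s ≤ N k ⊔ maximalIdeal T ^ s := by
    intro s k
    rcases le_total (κ s) k with h | h
    · exact (hκ s k h).le
    · exact sup_le_sup_right (hN h) _
  refine ⟨κ m, fun x hx => ?_⟩
  choose! g hg hg' using hL
  let f : ℕ → T := fun n => Nat.rec x (fun j y => g (m + j) y) n
  have hf : ∀ n, f n ∈ L (m + n) := by
    intro n
    induction n with
    | zero => exact Ideal.mem_sup_left hx
    | succ n ih => exact hg (m + n) _ ih
  have hf' : ∀ n, f (n + 1) - f n ∈ maximalIdeal T ^ (m + n) := fun n => hg' (m + n) _ (hf n)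
  obtain ⟨y, hy⟩ := exists_limit f
    (fun n => Ideal.pow_le_pow_right (Nat.le_add_left _ _) (hf' n))
  have hy0 : y = 0 := by
    refine h0 y fun k => mem_of_forall_mem_sup _ fun n => ?_
    have a0 : N k ⊔ maximalIdeal T ^ (m + n) ≤ N k ⊔ maximalIdeal T ^ n :=
      sup_le_sup_left (Ideal.pow_le_pow_right (Nat.le_add_left _ _)) _
    have a1 : f n ∈ N k ⊔ maximalIdeal T ^ n := a0 (hLN _ k (hf n))
    have := Ideal.add_mem _ (Ideal.mem_sup_right (hy n)) a1
    simpa using this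
  have hfx : ∀ n, f n - x ∈ maximalIdeal T ^ m := by
    intro n
    induction n with
    | zero => simp [f]
    | succ n ih =>
      have := Ideal.add_mem _ (Ideal.pow_le_pow_right (Nat.le_add_right _ _) (hf' n)) ih
      simpa using this
  have a1 := hy m
  rw [hy0, zero_sub, neg_mem_iff] at a1
  simpa using Ideal.sub_mem _ a1 (hfx m)

lemma regular_iff {R : Type u} [CommRing R] [IsNoetherianRing R] (x : R) :
    x ∈ nonZeroDivisors R ↔ ∀ P ∈ associatedPrimes R R, x ∉ P := by
  have := biUnion_associatedPrimes_eq_compl_nonZeroDivisors R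
  constructor
  · intro hx P hP hxP
    have h1 : x ∈ ⋃ p ∈ associatedPrimes R R, (p : Set R) := Set.mem_biUnion hP hxP
    rw [this] at h1
    exact h1 hx
  · intro h
    by_contra hx
    have h1 : x ∈ ⋃ p ∈ associatedPrimes R R, (p : Set R) := by rw [this]; exact hx
    obtain ⟨P, hP, hxP⟩ := Set.mem_iUnion₂.1 h1
    exact h P hP hxP

omit [IsNoetherianRing T] in
lemma exists_avoid (S : Set (Ideal T)) (hS : S.Finite) (hp : ∀ P ∈ S, P.IsPrime)
    (hM : maximalIdeal T ∉ S) : ∃ b ∈ maximalIdeal T, ∀ P ∈ S, b ∉ P := by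
  by_contra hcon
  push Not at hcon
  have h1 : (maximalIdeal T : Set T) ⊆ ⋃ P ∈ S, (id P : Ideal T) := fun b hb => by
    obtain ⟨P, hP, hbP⟩ := hcon b hb
    exact Set.mem_biUnion hP hbP
  obtain ⟨P, hP, hle⟩ := (Ideal.subset_union_prime_finite hS (f := id) ⊤ ⊤
    (fun P hP _ _ => hp P hP)).1 h1
  have := (maximalIdeal.isMaximal T).eq_of_le (hp P hP).ne_top hle
  exact hM (this ▸ hP)

lemma exists_prime_ne (P : Ideal T) [P.IsPrime] (hdim : 2 ≤ ringKrullDim (T ⧸ P)) (a : T)
    (ha : a ∈ maximalIdeal T) :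
    ∃ Q : Ideal T, Q.IsPrime ∧ P ≤ Q ∧ a ∈ Q ∧ Q ≠ maximalIdeal T := by
  by_contra hcon
  push Not at hcon
  have hPM : P ≤ maximalIdeal T := le_maximalIdeal Ideal.IsPrime.ne_top'
  have hmin : maximalIdeal T ∈ (P ⊔ Ideal.span {a}).minimalPrimes := by
    refine ⟨⟨inferInstance, sup_le hPM ((Ideal.span_singleton_le_iff_mem _).2 ha)⟩, ?_⟩
    intro Q hQ _
    exact (hcon Q hQ.1 (le_sup_left.trans hQ.2)
      (hQ.2 (Ideal.mem_sup_right (Ideal.mem_span_singleton_self a)))).ge
  have h1 := Ideal.map_height_le_one_of_mem_minimalPrimes hmin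
  have : IsLocalRing (T ⧸ P) :=
    IsLocalRing.of_surjective' (Ideal.Quotient.mk P) Ideal.Quotient.mk_surjective
  rw [IsLocalRing.map_maximalIdeal_of_surjective _ Ideal.Quotient.mk_surjective] at h1
  rw [← IsLocalRing.maximalIdeal_height_eq_ringKrullDim] at hdim
  have h2 : ((2 : ℕ∞) : WithBot ℕ∞) ≤ ((1 : ℕ∞) : WithBot ℕ∞) :=
    le_trans hdim (WithBot.coe_le_coe.2 h1)
  have h3 := WithBot.coe_le_coe.1 h2
  norm_num at h3

lemma exists_pair (hdim : ∀ P ∈ associatedPrimes T T, 2 ≤ ringKrullDim (T ⧸ P)) :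
    ∃ a ∈ maximalIdeal T, ∃ b ∈ maximalIdeal T, a ∈ nonZeroDivisors T ∧ b ∈ nonZeroDivisors T ∧
      ∀ (k : ℕ) (y : T), b ^ k - a * y ∈ nonZeroDivisors T := by
  have hM : maximalIdeal T ∉ associatedPrimes T T := by
    intro h
    obtain ⟨Q, hQ, h1, -, h3⟩ := exists_prime_ne _ (hdim _ h) 0 (Ideal.zero_mem _)
    exact h3 ((maximalIdeal.isMaximal T).eq_of_le hQ.ne_top h1).symm
  obtain ⟨a, haM, ha⟩ := exists_avoid _ (associatedPrimes.finite T T) (fun P hP => hP.isPrime) hM
  have hQ : ∀ P : associatedPrimes T T, ∃ Q : Ideal T, Q.IsPrime ∧ P.1 ≤ Q ∧ a ∈ Q ∧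
      Q ≠ maximalIdeal T := fun P =>
    haveI := P.2.isPrime
    exists_prime_ne P.1 (hdim _ P.2) a haM
  choose Q hQ1 hQ2 hQ3 hQ4 using hQ
  have : Finite (associatedPrimes T T) := (associatedPrimes.finite T T).to_subtype
  obtain ⟨b, hbM, hb⟩ := exists_avoid (Set.range Q) (Set.finite_range Q)
    (by rintro _ ⟨P, rfl⟩; exact hQ1 P) (by rintro ⟨P, hP⟩; exact hQ4 P hP)
  refine ⟨a, haM, b, hbM, (regular_iff a).2 ha, (regular_iff b).2 ?_, fun k y => ?_⟩
  · intro P hP hbP
    exact hb _ ⟨⟨P, hP⟩, rfl⟩ (hQ2 ⟨P, hP⟩ hbP)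
  · refine (regular_iff _).2 fun P hP hbP => hb _ ⟨⟨P, hP⟩, rfl⟩ ?_
    have h1 := Ideal.add_mem _ (hQ2 ⟨P, hP⟩ hbP) (Ideal.mul_mem_right y _ (hQ3 ⟨P, hP⟩))
    rw [sub_add_cancel] at h1
    exact (hQ1 ⟨P, hP⟩).mem_of_pow_mem k h1

/-- saturation of `(a ^ k)` with respect to `b` -/
def Sat {R : Type*} [CommRing R] (a b : R) (k : ℕ) : Ideal R where
  carrier := {x | ∃ j : ℕ, b ^ j * x ∈ Ideal.span {a ^ k}}
  add_mem' := by
    rintro x y ⟨i, hi⟩ ⟨j, hj⟩
    refine ⟨i + j, ?_⟩
    convert Ideal.add_mem _ (Ideal.mul_mem_left _ (b ^ j) hi) (Ideal.mul_mem_left _ (b ^ i) hj)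
      using 1
    ring
  zero_mem' := ⟨0, by simp⟩
  smul_mem' := by
    rintro r x ⟨i, hi⟩
    refine ⟨i, ?_⟩
    convert Ideal.mul_mem_left _ r hi using 1
    simp only [smul_eq_mul]; ring

omit [IsLocalRing T] in
lemma sat_inter {a b : T} (hb : b ∈ nonZeroDivisors T)
    (hab : ∀ (k : ℕ) (y : T), b ^ k - a * y ∈ nonZeroDivisors T) (x : T)
    (hx : ∀ k, x ∈ Sat a b k) : x = 0 := by
  let S := Localization.Away b
  let f := algebraMap T S
  have hinj : Function.Injective f :=
    IsLocalization.injective S (M := Submonoid.powers b) (Submonoid.powers_le.2 hb)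
  have hu : IsUnit (f b) := IsLocalization.Away.algebraMap_isUnit b
  have h1 : f x ∈ (⨅ i : ℕ, Ideal.span {f a} ^ i • ⊤ : Submodule S S) := by
    rw [Submodule.mem_iInf]
    intro k
    obtain ⟨j, hj⟩ := hx k
    obtain ⟨c, hc⟩ := Ideal.mem_span_singleton'.1 hj
    rw [smul_eq_mul, Ideal.mul_top, Ideal.span_singleton_pow,
      ← Ideal.unit_mul_mem_iff_mem _ (hu.pow j), ← map_pow, ← map_pow, ← map_mul, ← hc, map_mul]
    exact Ideal.mul_mem_left _ _ (Ideal.mem_span_singleton_self _)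
  obtain ⟨⟨r, hr⟩, hrx⟩ := (Ideal.mem_iInf_smul_pow_eq_bot_iff _ _).1 h1
  obtain ⟨c, rfl⟩ := Ideal.mem_span_singleton'.1 hr
  obtain ⟨k, y, hy⟩ := IsLocalization.Away.surj b c
  have h2 : f ((b ^ k - a * y) * x) = f 0 := by
    simp only [smul_eq_mul] at hrx
    have hy' : c * f b ^ k = f y := hy
    simp only [map_mul, map_sub, map_pow, map_zero]
    linear_combination (-(f b) ^ k) * hrx + f a * f x * hy'
  exact (mem_nonZeroDivisors_iff_left.1 (hab k y)) _ (hinj h2)

omit [IsLocalRing T] in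
lemma artin_rees {A : T} (hA : A ∈ nonZeroDivisors T) (b : T) :
    ∃ c : ℕ, ∀ (n : ℕ) (v : T), A * v ∈ Ideal.span {b ^ (n + c)} → v ∈ Ideal.span {b ^ n} := by
  obtain ⟨c, hc⟩ := Ideal.exists_pow_inf_eq_pow_smul (Ideal.span {b}) (M := T) (Ideal.span {A})
  refine ⟨c, fun n v hv => ?_⟩
  have h1 := hc (n + c) (Nat.le_add_left _ _)
  have h2 : A * v ∈ (Ideal.span {b} ^ (n + c) • ⊤ ⊓ Ideal.span {A} : Submodule T T) := by
    refine ⟨?_, Ideal.mul_mem_right _ _ (Ideal.mem_span_singleton_self _)⟩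
    rw [smul_eq_mul, Ideal.mul_top, Ideal.span_singleton_pow]
    exact hv
  rw [h1, Nat.add_sub_cancel] at h2
  have h3 : A * v ∈ Ideal.span {b} ^ n * Ideal.span {A} :=
    Submodule.smul_mono le_rfl inf_le_right h2
  rw [Ideal.span_singleton_pow, Ideal.span_singleton_mul_span_singleton] at h3
  obtain ⟨w, hw⟩ := Ideal.mem_span_singleton'.1 h3
  have h4 : A * (v - w * b ^ n) = 0 := by linear_combination -hw
  have h5 := (mem_nonZeroDivisors_iff_left.1 hA) _ h4
  exact Ideal.mem_span_singleton'.2 ⟨w, by linear_combination -h5⟩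

/-- Frames exist arbitrarily deep in the maximal ideal. -/
lemma rich [IsAdicComplete (maximalIdeal T) T]
    (hdim : ∀ P ∈ associatedPrimes T T, 2 ≤ ringKrullDim (T ⧸ P)) (m : ℕ) :
    ∃ (q : Ideal T) (e₁ e₂ e₃ : T), q ≤ maximalIdeal T ^ m ∧ Indep q e₁ e₂ e₃ ∧
      e₁ ∈ nonZeroDivisors T ∧ Reg q := by
  obtain ⟨a, -, b, hbM, ha, hb, hab⟩ := exists_pair hdim
  obtain ⟨k, hk⟩ := chevalley (Sat a b) (by
    intro i j hij x ⟨l, hl⟩
    exact ⟨l, Ideal.span_singleton_le_span_singleton.2 (pow_dvd_pow a hij) hl⟩)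
    (sat_inter hb hab) m
  obtain ⟨c, hc⟩ := artin_rees (pow_mem ha k) b
  refine ⟨Sat a b k ⊔ Ideal.span {b ^ m}, a ^ k * a ^ k, a ^ k * b ^ (m + c),
    b ^ (m + c) * b ^ (m + c), sup_le hk ?_, ?_, mul_mem (pow_mem ha k) (pow_mem ha k),
    b ^ m, Ideal.mem_sup_right (Ideal.mem_span_singleton_self _), pow_mem hb m⟩
  · exact (Ideal.span_singleton_le_iff_mem _).2 (Ideal.pow_mem_pow hbM m)
  intro r₁ r₂ r₃ hr
  have h1 := hc (m + c + m) (-(r₁ * a ^ k + r₂ * b ^ (m + c)))
    (Ideal.mem_span_singleton'.2 ⟨r₃, by linear_combination hr⟩)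
  obtain ⟨w, hw⟩ := Ideal.mem_span_singleton'.1 h1
  refine ⟨Ideal.mem_sup_right (hc m r₁ ?_), ?_, Ideal.mem_sup_left ⟨m + c + (m + c), ?_⟩⟩
  · exact Ideal.mem_span_singleton'.2 ⟨-(w * b ^ m + r₂), by linear_combination -hw⟩
  · have h2 : r₂ + w * b ^ m ∈ Sat a b k :=
      ⟨m + c, Ideal.mem_span_singleton'.2 ⟨-r₁, by linear_combination -hw⟩⟩
    have h3 := Ideal.sub_mem (Sat a b k ⊔ Ideal.span {b ^ m}) (Ideal.mem_sup_left h2)
      (Ideal.mem_sup_right (Ideal.mul_mem_left _ w (Ideal.mem_span_singleton_self _)))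
    simpa using h3
  · exact Ideal.mem_span_singleton'.2
      ⟨-(r₁ * a ^ k + r₂ * b ^ (m + c)), by linear_combination -hr⟩

/-- Upper bound for the cardinality of a Noetherian local ring. -/
lemma card_le_pow : #T ≤ #(ResidueField T) ^ ℵ₀ := by
  classical
  set c := #(ResidueField T) ^ ℵ₀ with hc
  have h2 : (2 : Cardinal) ≤ #(ResidueField T) := two_le_iff.2 ⟨0, 1, zero_ne_one⟩
  have hinf : ℵ₀ ≤ c := aleph0_le_continuum.trans (by
    rw [← two_power_aleph0]; exact power_le_power_right h2)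
  have hcc : c ^ ℵ₀ = c := by rw [hc, ← power_mul, aleph0_mul_aleph0]
  obtain ⟨s, hs⟩ := (residue_surjective (R := T)).hasRightInverse
  have hZ : ∀ n : ℕ, ∃ Z : Set T, #Z ≤ c ∧ ∀ x, ∃ z ∈ Z, x - z ∈ maximalIdeal T ^ n := by
    intro n
    induction n with
    | zero => exact ⟨{0}, by simpa using (one_le_aleph0.trans hinf), fun x => ⟨0, rfl, by simp⟩⟩
    | succ n ih =>
      obtain ⟨Z, hZ, hZ'⟩ := ih
      obtain ⟨p, g, hg⟩ := Submodule.fg_iff_exists_fin_generating_family.1
        (IsNoetherian.noetherian (maximalIdeal T ^ n))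
      refine ⟨Set.range (fun y : Z × (Fin p → ResidueField T) => y.1.1 + ∑ i, s (y.2 i) * g i),
        ?_, fun x => ?_⟩
      · refine mk_range_le.trans ?_
        rw [mk_prod, lift_id, lift_id, ← mul_eq_self hinf]
        refine mul_le_mul' hZ ?_
        have : #(Fin p → ResidueField T) = #(ResidueField T) ^ (p : Cardinal) := by simp
        rw [this]
        exact power_le_power_left (by intro h; rw [h] at h2; norm_num at h2) natCast_le_aleph0
      · obtain ⟨z, hz, hxz⟩ := hZ' x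
        rw [← hg] at hxz
        obtain ⟨r, hr⟩ := (Submodule.mem_span_range_iff_exists_fun T).1 hxz
        refine ⟨_, ⟨(⟨z, hz⟩, fun i => residue T (r i)), rfl⟩, ?_⟩
        have e : x - (z + ∑ i, s (residue T (r i)) * g i)
            = ∑ i, (r i - s (residue T (r i))) * g i := by
          simp only [sub_mul, Finset.sum_sub_distrib]
          simp only [smul_eq_mul] at hr
          rw [hr]; ring
        simp only
        rw [e, pow_succ']
        refine Ideal.sum_mem _ fun i _ => Ideal.mul_mem_mul ?_ ?_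
        · rw [← residue_eq_zero_iff, map_sub, hs, sub_self]
        · rw [← hg]; exact Submodule.subset_span ⟨i, rfl⟩
  choose Z hZ z hz hz' using hZ
  have hinj : Function.Injective (fun x : T => (fun n : ℕ => (⟨z n x, hz n x⟩ : Z n))) := by
    intro x y hxy
    rw [← sub_eq_zero, ← Ideal.mem_bot]
    refine mem_of_forall_mem_sup _ fun n => Ideal.mem_sup_right ?_
    have e : z n x = z n y := congrArg Subtype.val (congrFun hxy n)
    have := Ideal.sub_mem _ (hz' n x) (hz' n y)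
    rw [e] at this
    simpa using this
  refine (mk_le_of_injective hinj).trans ?_
  rw [mk_pi, ← hcc]
  refine (prod_le_prod _ (fun _ => c) hZ).trans ?_
  simp

/-- Lower bound for the cardinality of a complete local domain that is not a field. -/
lemma pow_le_card [IsAdicComplete (maximalIdeal T) T] (P : Ideal T) [hP : P.IsPrime]
    (hPM : P ≠ maximalIdeal T) : #(ResidueField T) ^ ℵ₀ ≤ #(T ⧸ P) := by
  classical
  obtain ⟨s, hs⟩ := (residue_surjective (R := T)).hasRightInverse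
  obtain ⟨t, htM, htP⟩ : ∃ t ∈ maximalIdeal T, t ∉ P := by
    by_contra h
    push Not at h
    exact hPM (le_antisymm (le_maximalIdeal hP.ne_top) h)
  have hlim : ∀ f : ℕ → ResidueField T, ∃ L, ∀ n,
      L - ∑ j ∈ Finset.range n, s (f j) * t ^ j ∈ maximalIdeal T ^ n := fun f =>
    exists_limit _ (fun n => by
      rw [Finset.sum_range_succ, add_sub_cancel_left]
      exact Ideal.mul_mem_left _ _ (Ideal.pow_mem_pow htM n))
  choose L hL using hlim
  have hinj : Function.Injective (fun f => Ideal.Quotient.mk P (L f)) := by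
    intro f g hfg
    have hP1 : L f - L g ∈ P := Ideal.Quotient.eq.1 hfg
    by_contra hne
    have hex : ∃ j, f j ≠ g j := Function.ne_iff.1 hne
    set j := Nat.find hex with hj
    have hj1 : f j ≠ g j := Nat.find_spec hex
    have hj2 : ∀ i < j, f i = g i := fun i hi => not_not.1 (Nat.find_min hex hi)
    have hu : s (f j) - s (g j) ∉ maximalIdeal T := by
      rw [← residue_eq_zero_iff, map_sub, hs, hs, sub_eq_zero]
      exact hj1
    have hsum : ∀ n, ∃ w, ∑ i ∈ Finset.range (j + 1 + n), s (f i) * t ^ i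
        - ∑ i ∈ Finset.range (j + 1 + n), s (g i) * t ^ i
        = t ^ j * (s (f j) - s (g j) + t * w) := by
      intro n
      induction n with
      | zero =>
        refine ⟨0, ?_⟩
        have : ∑ i ∈ Finset.range j, s (f i) * t ^ i = ∑ i ∈ Finset.range j, s (g i) * t ^ i :=
          Finset.sum_congr rfl fun i hi => by rw [hj2 i (Finset.mem_range.1 hi)]
        rw [add_zero, Finset.sum_range_succ, Finset.sum_range_succ, this]
        ring
      | succ n ih =>
        obtain ⟨w, hw⟩ := ih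
        refine ⟨w + (s (f (j + 1 + n)) - s (g (j + 1 + n))) * t ^ n, ?_⟩
        rw [← add_assoc, Finset.sum_range_succ, Finset.sum_range_succ _ (j + 1 + n)]
        linear_combination hw
    apply htP
    refine hP.mem_of_pow_mem j (mem_of_forall_mem_sup _ fun n => ?_)
    obtain ⟨w, hw⟩ := hsum n
    have hunit : IsUnit (s (f j) - s (g j) + t * w) := by
      rw [← notMem_maximalIdeal]
      intro h
      exact hu ((Ideal.add_mem_iff_left _ (Ideal.mul_mem_right w _ htM)).1 h)
    rw [← Ideal.mul_unit_mem_iff_mem _ hunit, ← hw]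
    have a1 := Ideal.pow_le_pow_right (I := maximalIdeal T) (Nat.le_add_left n (j + 1))
      (Ideal.sub_mem _ (hL g (j + 1 + n)) (hL f (j + 1 + n)))
    have a2 := Ideal.add_mem (P ⊔ maximalIdeal T ^ n) (Ideal.mem_sup_left hP1)
      (Ideal.mem_sup_right a1)
    convert a2 using 1
    ring
  have := lift_mk_le_lift_mk_of_injective hinj
  simpa using this

end Local

lemma bigTr_of_card {S : Type u} [CommRing S] [IsDomain S] {c : Cardinal.{u}} (h0 : ℵ₀ < c)
    (hc : c ≤ #S) : BigTr S c := by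
  intro X hX
  by_contra hcon
  push Not at hcon
  have : Algebra.IsAlgebraic (Subring.closure X) S := ⟨fun y => not_not.1 (hcon y)⟩
  have h1 := Algebra.IsAlgebraic.cardinalMk_le_max (Subring.closure X) S
  have h2 := Algebra.lift_cardinalMk_adjoin_le ℤ X
  rw [Algebra.adjoin_int] at h2
  have h3 : #(Subring.closure X) ≤ max #X ℵ₀ := by
    have h4 : #(Subring.closure X) = #(subalgebraOfSubring (Subring.closure X)) := rfl
    rw [h4]
    simpa [sup_comm] using h2
  exact absurd (hc.trans h1) (not_le.2 (max_lt (h3.trans_lt (max_lt hX h0)) h0))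

lemma bigTr_of_trdeg {S : Type u} [CommRing S] [IsDomain S] {c : Cardinal.{u}}
    (hc : c ≤ Algebra.trdeg (⊥ : Subring S) S) : BigTr S c := by
  intro X hX
  by_contra hcon
  push Not at hcon
  have hle : Subring.closure X ≤ (Algebra.adjoin (⊥ : Subring S) X).toSubring :=
    Subring.closure_le.2 Algebra.subset_adjoin
  have : Algebra.IsAlgebraic (Algebra.adjoin (⊥ : Subring S) X) S := ⟨fun y => by
    by_contra hy
    exact hcon y (transc_mono hle hy)⟩
  exact absurd (hc.trans (Algebra.IsAlgebraic.trdeg_le_cardinalMk _ X)) (not_le.2 hX)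

lemma card_ideal_le (R : Type u) [CommRing R] [IsNoetherianRing R] :
    #(Ideal R) ≤ max #R ℵ₀ := by
  have hs : Function.Surjective (fun s : Finset R => Ideal.span (s : Set R)) := fun I =>
    IsNoetherian.noetherian I
  refine (mk_le_of_surjective hs).trans ?_
  cases finite_or_infinite R
  · exact (lt_aleph0_of_finite _).le.trans (le_max_right _ _)
  · rw [mk_finset_of_infinite]; exact le_max_left _ _

end Pool.Agent.MP_f1fec5_al
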