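import Pool.Agent.MP_f1fec5_al.Product

namespace Pool.Agent.MP_f1fec5_al

open Cardinal IsLocalRing

universe u v

/-- A multiplicative isomorphism between the posets of regular ideals of two rings. -/
structure RModel (R S : Type u) [CommRing R] [CommRing S] where
  F : Ideal R → Ideal S
  reg : ∀ {X}, Reg X → Reg (F X)
  le_iff : ∀ {X Y}, Reg X → Reg Y → (F X ≤ F Y ↔ X ≤ Y)
  map_mul : ∀ {X Y}, Reg X → Reg Y → F (X * Y) = F X * F Y
  surj : ∀ Z, Reg Z → ∃ X, Reg X ∧ F X = Z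

lemma Model.hasDomainModel {R : Type u} {D : Type v} [CommRing R] [Nontrivial R] [CommRing D]
    [IsDomain D] (m : Model R D) : HasDomainModel.{u, v} R := by
  classical
  have hnb : ¬ Reg (⊥ : Ideal R) := fun ⟨x, hx, hx'⟩ =>
    nonZeroDivisors.ne_zero hx' (Ideal.mem_bot.1 hx)
  let f : RegIdeal R → Ideal D := fun J => if Reg J.1 then m.F J.1 else ⊥
  have hf1 : ∀ J : RegIdeal R, Reg J.1 → f J = m.F J.1 := fun J h => if_pos h
  have hf2 : ∀ J : RegIdeal R, J.1 = ⊥ → f J = ⊥ := fun J h => if_neg (by rw [h]; exact hnb)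
  have hle : ∀ I J : RegIdeal R, f I ≤ f J ↔ I ≤ J := by
    intro I J
    rcases I.2 with hI | hI
    · rw [hf2 I hI]
      exact ⟨fun _ => (show I.1 ≤ J.1 by rw [hI]; exact bot_le), fun _ => bot_le⟩
    rcases J.2 with hJ | hJ
    · rw [hf1 I hI, hf2 J hJ]
      constructor
      · intro h
        exact absurd (eq_bot_iff.2 h) (m.ne_bot hI)
      · intro h
        exact absurd (hJ ▸ Reg.mono hI h) hnb
    · rw [hf1 I hI, hf1 J hJ]
      exact m.le_iff hI hJ
  have hsurj : Function.Surjective f := by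
    intro Z
    by_cases hZ : Z = ⊥
    · exact ⟨⟨⊥, Or.inl rfl⟩, (hf2 _ rfl).trans hZ.symm⟩
    · obtain ⟨X, hX, e⟩ := m.surj Z hZ
      exact ⟨⟨X, Or.inr hX⟩, (hf1 _ hX).trans e⟩
  refine ⟨D, inferInstance, inferInstance,
    RelIso.ofSurjective (OrderEmbedding.ofMapLEIff f hle) hsurj, fun I J K hK => ?_⟩
  change f K = f I * f J
  rcases I.2 with hI | hI
  · rw [hf2 I hI, hf2 K (by rw [hK, hI]; simp)]; simp
  rcases J.2 with hJ | hJ
  · rw [hf2 J hJ, hf2 K (by rw [hK, hJ]; simp)]; simp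
  rw [hf1 I hI, hf1 J hJ, hf1 K (hK ▸ Reg.mul hI hJ), hK, m.map_mul hI hJ]

lemma RModel.hasDomainModel {R S : Type u} [CommRing R] [CommRing S] [Nontrivial R]
    [Nontrivial S] (r : RModel R S) (h : HasDomainModel.{u, v} S) : HasDomainModel.{u, v} R := by
  obtain ⟨D, _, _, ⟨m⟩⟩ := h.exists_model
  refine Model.hasDomainModel (D := D) ⟨fun X => m.F (r.F X), ?_, ?_, ?_, ?_⟩
  · intro X Y hX hY
    rw [m.le_iff (r.reg hX) (r.reg hY), r.le_iff hX hY]
  · intro X Y hX hY
    rw [r.map_mul hX hY, m.map_mul (r.reg hX) (r.reg hY)]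
  · intro X hX
    exact m.ne_bot (r.reg hX)
  · intro Z hZ
    obtain ⟨Y, hY, rfl⟩ := m.surj Z hZ
    obtain ⟨X, hX, rfl⟩ := r.surj Y hY
    exact ⟨X, hX, rfl⟩

lemma nonempty_rmodel_refl (R : Type u) [CommRing R] : Nonempty (RModel R R) :=
  ⟨⟨id, id, fun _ _ => Iff.rfl, fun _ _ => rfl, fun Z hZ => ⟨Z, hZ, rfl⟩⟩⟩

lemma nonempty_rmodel_of_units (R S : Type u) [CommRing R] [CommRing S]
    (hR : ∀ x ∈ nonZeroDivisors R, IsUnit x) (hS : ∀ x ∈ nonZeroDivisors S, IsUnit x) :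
    Nonempty (RModel R S) := by
  have h1 : ∀ X : Ideal R, Reg X → X = ⊤ := fun X ⟨x, hx, hx'⟩ =>
    X.eq_top_of_isUnit_mem hx (hR x hx')
  have h2 : ∀ X : Ideal S, Reg X → X = ⊤ := fun X ⟨x, hx, hx'⟩ =>
    X.eq_top_of_isUnit_mem hx (hS x hx')
  refine ⟨⟨fun _ => ⊤, fun _ => ⟨1, trivial, one_mem _⟩, ?_, ?_, ?_⟩⟩
  · intro X Y hX hY
    rw [h1 X hX, h1 Y hY]; simp
  · intro X Y _ _; simp
  · intro Z hZ
    exact ⟨⊤, ⟨1, trivial, one_mem _⟩, (h2 Z hZ).symm⟩

lemma nonempty_rmodel_dvr (R S : Type u) [CommRing R] [CommRing S] [IsDomain R] [IsDomain S]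
    [IsDiscreteValuationRing R] [IsDiscreteValuationRing S] : Nonempty (RModel R S) := by
  obtain ⟨p, hp⟩ := IsDiscreteValuationRing.exists_irreducible R
  obtain ⟨q, hq⟩ := IsDiscreteValuationRing.exists_irreducible S
  have hne : ∀ {A : Type u} [CommRing A] [IsDomain A] {X : Ideal A}, Reg X → X ≠ ⊥ := by
    rintro A _ _ X ⟨x, hx, hx'⟩ rfl
    exact nonZeroDivisors.ne_zero hx' (Ideal.mem_bot.1 hx)
  have hreg : ∀ {A : Type u} [CommRing A] [IsDomain A] {x : A}, Irreducible x → ∀ n : ℕ,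
      Reg (Ideal.span {x ^ n}) := fun hx n =>
    ⟨_, Ideal.mem_span_singleton_self _, mem_nonZeroDivisors_of_ne_zero (pow_ne_zero n hx.ne_zero)⟩
  have hle : ∀ {A : Type u} [CommRing A] [IsDomain A] {x : A}, Irreducible x → ∀ a b : ℕ,
      Ideal.span {x ^ a} ≤ Ideal.span {x ^ b} ↔ b ≤ a := fun hx a b => by
    rw [Ideal.span_singleton_le_span_singleton, pow_dvd_pow_iff hx.ne_zero hx.not_isUnit]
  have hex : ∀ X : Ideal R, ∃ n : ℕ, Reg X → X = Ideal.span {p ^ n} := by
    intro X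
    by_cases hX : Reg X
    · obtain ⟨n, hn⟩ := IsDiscreteValuationRing.ideal_eq_span_pow_irreducible (hne hX) hp
      exact ⟨n, fun _ => hn⟩
    · exact ⟨0, fun h => absurd h hX⟩
  choose ν hν using hex
  have hν' : ∀ n, ν (Ideal.span {p ^ n}) = n := fun n => by
    have := hν _ (hreg hp n)
    exact le_antisymm ((hle hp _ _).1 this.le) ((hle hp _ _).1 this.ge)
  refine ⟨⟨fun X => Ideal.span {q ^ ν X}, fun _ => hreg hq _, ?_, ?_, ?_⟩⟩
  · intro X Y hX hY
    rw [hle hq, ← hle hp, ← hν X hX, ← hν Y hY]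
  · intro X Y hX hY
    have : X * Y = Ideal.span {p ^ (ν X + ν Y)} := by
      rw [pow_add, ← Ideal.span_singleton_mul_span_singleton, ← hν X hX, ← hν Y hY]
    rw [this, hν', pow_add, Ideal.span_singleton_mul_span_singleton]
  · intro Z hZ
    obtain ⟨n, hn⟩ := IsDiscreteValuationRing.ideal_eq_span_pow_irreducible (hne hZ) hq
    exact ⟨Ideal.span {p ^ n}, hreg hp n, by rw [hν', hn]⟩

section Pi

variable {ι : Type} [Finite ι] {T : ι → Type u} [∀ i, CommRing (T i)]

lemma pi_le_iff (X Y : Ideal (Π i, T i)) :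
    X ≤ Y ↔ ∀ i, X.map (Pi.evalRingHom T i) ≤ Y.map (Pi.evalRingHom T i) :=
  Ideal.piOrderIso.le_iff_le.symm

lemma pi_ext {X Y : Ideal (Π i, T i)}
    (h : ∀ i, X.map (Pi.evalRingHom T i) = Y.map (Pi.evalRingHom T i)) : X = Y :=
  le_antisymm ((pi_le_iff _ _).2 fun i => (h i).le) ((pi_le_iff _ _).2 fun i => (h i).ge)

omit [Finite ι] in
lemma reg_pi {I : Π i, Ideal (T i)} (h : ∀ i, Reg (I i)) : Reg (Ideal.pi I) := by
  choose x hx hx' using h
  exact ⟨x, (Ideal.mem_pi _ _).2 hx, (pi_regular_iff x).2 hx'⟩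

omit [Finite ι] in
lemma Reg.map_eval {X : Ideal (Π i, T i)} (h : Reg X) (i : ι) :
    Reg (X.map (Pi.evalRingHom T i)) :=
  let ⟨x, hx, hx'⟩ := h
  ⟨x i, Ideal.mem_map_of_mem (Pi.evalRingHom T i) hx, (pi_regular_iff x).1 hx' i⟩

lemma nonempty_rmodel_pi {S : ι → Type u} [∀ i, CommRing (S i)]
    (h : ∀ i, Nonempty (RModel (T i) (S i))) : Nonempty (RModel (Π i, T i) (Π i, S i)) := by
  let r := fun i => (h i).some
  refine ⟨⟨fun X => Ideal.pi fun i => (r i).F (X.map (Pi.evalRingHom T i)), ?_, ?_, ?_, ?_⟩⟩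
  · intro X hX
    exact reg_pi fun i => (r i).reg (hX.map_eval i)
  · intro X Y hX hY
    rw [Ideal.pi_le_pi_iff, pi_le_iff]
    exact forall_congr' fun i => (r i).le_iff (hX.map_eval i) (hY.map_eval i)
  · intro X Y hX hY
    refine pi_ext fun i => ?_
    simp only [Ideal.map_mul, Ideal.map_evalRingHom_pi]
    exact (r i).map_mul (hX.map_eval i) (hY.map_eval i)
  · intro Z hZ
    choose X hX hX' using fun i => (r i).surj _ (hZ.map_eval i)
    refine ⟨Ideal.pi X, reg_pi hX, pi_ext fun i => ?_⟩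
    simp only [Ideal.map_evalRingHom_pi]
    exact hX' i

end Pi

lemma card_quot_of_domain {S : Type u} [CommRing S] [IsDomain S] [IsNoetherianRing S]
    {P : Ideal S} (hP : P ∈ associatedPrimes S S) : #S ≤ #(S ⧸ P) := by
  refine mk_le_of_injective (f := Ideal.Quotient.mk P) ?_
  rw [injective_iff_map_eq_zero]
  intro x hx
  by_contra h0
  exact (regular_iff x).1 (mem_nonZeroDivisors_of_ne_zero h0) P hP
    (Ideal.Quotient.eq_zero_iff_mem.1 hx)

lemma card_powerSeries (k : Type u) [CommRing k] : #(PowerSeries k) = #k ^ ℵ₀ := by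
  have e : PowerSeries k ≃ (ℕ → k) :=
    ⟨fun f n => PowerSeries.coeff n f, PowerSeries.mk, fun f => by ext; simp,
      fun f => by ext; simp⟩
  rw [mk_congr e]
  simp

theorem complete_suff {ι : Type} [Finite ι] [Nonempty ι] (T : ι → Type u)
    [∀ i, CommRing (T i)] [∀ i, IsLocalRing (T i)] [∀ i, IsNoetherianRing (T i)]
    [∀ i, IsAdicComplete (maximalIdeal (T i)) (T i)] (Big : ι → Prop)
    (hM : ∀ i, Big i → maximalIdeal (T i) ∉ associatedPrimes (T i) (T i))
    (hrest : ∀ i, ¬ Big i → maximalIdeal (T i) ∈ associatedPrimes (T i) (T i) ∨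
      ∃ _ : IsDomain (T i), IsDiscreteValuationRing (T i))
    (hint : ∀ n : ℤ, (∀ i, Big i → (n : T i) = 0) ∨
        (∀ i, Big i → (n : T i) ∈ nonZeroDivisors (T i)))
    (hcard : ∀ i j, Big i → Big j → #(T i) = #(T j)) :
    HasDomainModel.{u, max u v} (Π i, T i) := by
  have : Inhabited ι := Classical.inhabited_of_nonempty inferInstance
  have : Nontrivial (Π i, T i) := Pi.nontrivial
  have hP : ∀ i, Big i → ∃ P ∈ associatedPrimes (T i) (T i), P ≠ maximalIdeal (T i) := by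
    intro i hi
    obtain ⟨P, hP⟩ := associatedPrimes.nonempty (T i) (T i)
    exact ⟨P, hP, fun h => hM i hi (h ▸ hP)⟩
  have hk : ∃ (k : Type u) (_ : Field k), ℵ₀ < #k ∧ #k ^ ℵ₀ = #k ∧ ∀ i, Big i → #(T i) = #k ∧
      ∀ n : ℤ, ((n : k) = 0 → (n : T i) = 0) ∧
        ((n : k) ≠ 0 → (n : T i) ∈ nonZeroDivisors (T i)) := by
    by_cases hex : ∃ i, Big i
    · obtain ⟨i₀, hi₀⟩ := hex
      obtain ⟨P, hP', hPi⟩ := hP i₀ hi₀
      have := hP'.isPrime
      have e1 : #(FractionRing (T i₀ ⧸ P)) = #(T i₀) := by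
        rw [Cardinal.mk_fractionRing, card_quot_eq P hPi]
      have e2 : ∀ n : ℤ, (n : FractionRing (T i₀ ⧸ P)) = 0 ↔ (n : T i₀) ∈ P := by
        intro n
        rw [← Ideal.Quotient.eq_zero_iff_mem, map_intCast,
          ← (IsFractionRing.injective (T i₀ ⧸ P) (FractionRing (T i₀ ⧸ P))).eq_iff,
          map_intCast, map_zero]
      refine ⟨FractionRing (T i₀ ⧸ P), inferInstance, e1 ▸ aleph0_lt_card P hPi, ?_,
        fun i hi => ⟨e1 ▸ hcard i i₀ hi hi₀, fun n => ⟨fun hn => ?_, fun hn => ?_⟩⟩⟩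
      · rw [e1, card_eq_pow P hPi, ← power_mul, aleph0_mul_aleph0]
      · rcases hint n with h1 | h1
        · exact h1 i hi
        · exact absurd ((e2 n).1 hn) ((regular_iff _).1 (h1 i₀ hi₀) P hP')
      · rcases hint n with h1 | h1
        · exact absurd ((e2 n).2 (by rw [h1 i₀ hi₀]; exact P.zero_mem)) hn
        · exact h1 i hi
    · refine ⟨ULift ℝ, inferInstance, by simp, by simp [mk_real],
        fun i hi => absurd ⟨i, hi⟩ hex⟩
  obtain ⟨k, _, hk0, hk1, hk2⟩ := hk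
  have hS : ∀ i, ∃ (S : CommRingCat.{u}) (_ : IsNoetherianRing S), Nonempty (RModel (T i) S) ∧
      #S = #k ∧ (∀ P ∈ associatedPrimes S S, #k ≤ #(S ⧸ P)) ∧
      ∀ n : ℤ, ((n : k) = 0 → (n : S) = 0) ∧ ((n : k) ≠ 0 → (n : S) ∈ nonZeroDivisors S) := by
    intro i
    by_cases hi : Big i
    · refine ⟨CommRingCat.of (T i), inferInstanceAs (IsNoetherianRing (T i)),
        nonempty_rmodel_refl _, (hk2 i hi).1, fun Q hQ => ?_, (hk2 i hi).2⟩
      have := hQ.isPrime
      exact ((card_quot_eq (S := T i) Q (fun h => hM i hi (h ▸ hQ))).trans (hk2 i hi).1).ge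
    rcases hrest i hi with h1 | ⟨_, h1⟩
    · refine ⟨CommRingCat.of k, inferInstanceAs (IsNoetherianRing k),
        nonempty_rmodel_of_units (T i) k ?_ ?_, rfl, fun Q hQ => card_quot_of_domain hQ,
        fun n => ⟨id, mem_nonZeroDivisors_of_ne_zero⟩⟩
      · intro x hx
        exact notMem_maximalIdeal.1 ((regular_iff x).1 hx _ h1)
      · intro x hx
        exact (nonZeroDivisors.ne_zero hx).isUnit
    · have e1 : #(PowerSeries k) = #k := by rw [card_powerSeries, hk1]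
      have e2 : ∀ n : ℤ, (n : PowerSeries k) = 0 ↔ (n : k) = 0 := by
        intro n
        rw [← (PowerSeries.C_injective (R := k)).eq_iff, map_intCast, map_zero]
      refine ⟨CommRingCat.of (PowerSeries k), inferInstanceAs (IsNoetherianRing (PowerSeries k)),
        nonempty_rmodel_dvr (T i) (PowerSeries k), e1,
        fun Q hQ => e1.ge.trans (card_quot_of_domain hQ),
        fun n => ⟨(e2 n).2, fun hn => mem_nonZeroDivisors_of_ne_zero (fun h => hn ((e2 n).1 h))⟩⟩
  choose S hS1 hS2 hS3 hS4 hS5 using hS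
  obtain ⟨r⟩ := nonempty_rmodel_pi hS2
  have hinf : ∀ i, Nontrivial (S i) := fun i => by
    have : Infinite (S i) := by rw [← aleph0_le_mk_iff, hS3]; exact hk0.le
    infer_instance
  have : Nontrivial (Π i, S i) := Pi.nontrivial
  refine HasDomainModel.ulift (r.hasDomainModel
    (hasDomainModel_pi (fun i => S i) #k hk0 hS3 hS4 fun n => ?_))
  by_cases hn : (n : k) = 0
  · left
    ext i
    exact (hS5 i n).1 hn
  · right
    rw [pi_regular_iff]
    exact fun i => (hS5 i n).2 hn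


theorem complete_iff {ι : Type} [Finite ι] [Nonempty ι] (T : ι → Type u)
    [∀ i, CommRing (T i)] [∀ i, IsLocalRing (T i)] [∀ i, IsNoetherianRing (T i)]
    [∀ i, IsAdicComplete (maximalIdeal (T i)) (T i)] (Big : ι → Prop)
    (hdim : ∀ i, Big i → ∀ P ∈ associatedPrimes (T i) (T i), 2 ≤ ringKrullDim (T i ⧸ P))
    (hrest : ∀ i, ¬ Big i → maximalIdeal (T i) ∈ associatedPrimes (T i) (T i) ∨
      ∃ _ : IsDomain (T i), IsDiscreteValuationRing (T i)) :
    HasDomainModel.{u, max u v} (Π i, T i) ↔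
      (∀ n : ℤ, (∀ i, Big i → (n : T i) = 0) ∨
        (∀ i, Big i → (n : T i) ∈ nonZeroDivisors (T i))) ∧
      ∀ i j, Big i → Big j → #(T i) = #(T j) := by
  have : Inhabited ι := Classical.inhabited_of_nonempty inferInstance
  have : Nontrivial (Π i, T i) := Pi.nontrivial
  have hP : ∀ i, Big i → ∃ P ∈ associatedPrimes (T i) (T i), P ≠ maximalIdeal (T i) := by
    intro i hi
    obtain ⟨P, hP⟩ := associatedPrimes.nonempty (T i) (T i)
    have := hP.isPrime
    exact ⟨P, hP, ne_max_of_dim (hdim i hi P hP)⟩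
  have hrich : ∀ i, Big i → Rich (T i) := fun i hi => rich (hdim i hi)
  constructor
  · intro h
    obtain ⟨D, _, _, ⟨m⟩⟩ := h.exists_model
    have hnat : ∀ n : ℕ, (∀ i, Big i → (n : T i) = 0) ∨
        (∀ i, Big i → (n : T i) ∈ nonZeroDivisors (T i)) := by
      intro n
      by_cases hn : (n : D) = 0
      · exact Or.inl fun i hi => natCast_eq_zero m i (hrich i hi) n hn
      · exact Or.inr fun i hi => natCast_regular m i (hrich i hi) n hn
    have hle : ∀ i j, Big i → Big j → #(T j) ≤ #(T i) := by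
      intro i j hi hj
      obtain ⟨P, hP', hPi⟩ := hP i hi
      obtain ⟨Q, hQ', hQj⟩ := hP j hj
      have := hP'.isPrime
      have := hQ'.isPrime
      have a0 := (aleph0_lt_card P hPi).le
      have a1 := card_model_le m i (hrich i hi)
      have a2 := card_residue_le m j (hrich j hj)
      have a3 : #(T i) ^ ℵ₀ = #(T i) := by
        rw [card_eq_pow P hPi, ← power_mul, aleph0_mul_aleph0]
      rw [max_eq_left a0, a3] at a1
      have a4 : lift.{max u v} #(ResidueField (T j)) ≤ lift.{max u v} #(T i) := by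
        refine a2.trans ?_
        rw [lift_max, lift_aleph0]
        exact max_le a1 (aleph0_le_lift.2 a0)
      rw [card_eq_pow Q hQj, ← a3]
      exact power_le_power_right (lift_le.1 a4)
    refine ⟨fun n => ?_, fun i j hi hj => le_antisymm (hle j i hj hi) (hle i j hi hj)⟩
    obtain ⟨k, rfl | rfl⟩ := n.eq_nat_or_neg
    · simpa using hnat k
    · rcases hnat k with h1 | h1
      · exact Or.inl fun i hi => by simp [h1 i hi]
      · refine Or.inr fun i hi => ?_
        have e : ((-(k : ℤ) : ℤ) : T i) = (-1) * (k : T i) := by simp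
        rw [e]
        exact mul_mem (IsUnit.mem_nonZeroDivisors isUnit_one.neg) (h1 i hi)
  · rintro ⟨hint, hcard⟩
    refine complete_suff T Big (fun i hi hM => ?_) hrest hint hcard
    exact ne_max_of_dim (hdim i hi _ hM) rfl

end Pool.Agent.MP_f1fec5_al
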