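import Pool.Agent.MP_f1fec5_al.Local

namespace Pool.Agent.MP_f1fec5_al

open Cardinal IsLocalRing

universe u v

lemma pi_regular_iff {ι : Type} {T : ι → Type u} [∀ i, CommRing (T i)] (x : Π i, T i) :
    x ∈ nonZeroDivisors (Π i, T i) ↔ ∀ i, x i ∈ nonZeroDivisors (T i) := by
  classical
  constructor
  · intro hx i
    rw [mem_nonZeroDivisors_iff_left] at hx ⊢
    intro y hy
    have := hx (Pi.single i y) (by
      ext j
      by_cases h : j = i
      · subst h; simpa using hy
      · simp [Pi.single_eq_of_ne h])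
    simpa using congrFun this i
  · intro h
    rw [mem_nonZeroDivisors_iff_left]
    intro y hy
    ext i
    exact (mem_nonZeroDivisors_iff_left.1 (h i)) _ (congrFun hy i)

section Product

variable {ι : Type} {T : ι → Type u} [∀ i, CommRing (T i)]

/-- A frame in one factor gives a frame in the product. -/
lemma lift_frame (i : ι) {q : Ideal (T i)} {e₁ e₂ e₃ : T i} (h : Indep q e₁ e₂ e₃)
    (he : e₁ ∈ nonZeroDivisors (T i)) (hq : Reg q) :
    ∃ E₁ E₂ E₃ : Π j, T j, Indep (q.comap (Pi.evalRingHom T i)) E₁ E₂ E₃ ∧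
      Reg (Iq (q.comap (Pi.evalRingHom T i)) E₁ E₂ E₃) ∧
      RingHom.ker (Pi.evalRingHom T i) ≤ Iq (q.comap (Pi.evalRingHom T i)) E₁ E₂ E₃ := by
  classical
  have hreg : ∀ x ∈ nonZeroDivisors (T i),
      Function.update (1 : Π j, T j) i x ∈ nonZeroDivisors (Π j, T j) := by
    intro x hx
    rw [pi_regular_iff]
    intro j
    by_cases hj : j = i
    · subst hj; simpa using hx
    · rw [Function.update_of_ne hj]; exact one_mem _
  refine ⟨Function.update 1 i e₁, Function.update 1 i e₂, Function.update 1 i e₃, ?_, ?_, ?_⟩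
  · intro r₁ r₂ r₃ hr
    have := congrFun hr i
    simp only [Pi.add_apply, Pi.mul_apply, Function.update_self, Pi.zero_apply] at this
    exact h _ _ _ this
  · obtain ⟨s, hs, hs'⟩ := hq
    refine ⟨Function.update (1 : Π j, T j) i s * Function.update (1 : Π j, T j) i e₁,
      ⟨Function.update 1 i s, ?_, 0,
      Ideal.zero_mem _, 0, Ideal.zero_mem _, by ring⟩, mul_mem (hreg s hs') (hreg e₁ he)⟩
    simpa [Ideal.mem_comap] using hs
  · intro x hx
    have hx' : x i = 0 := hx
    refine ⟨x, by simp [Ideal.mem_comap, hx'], 0, Ideal.zero_mem _, 0, Ideal.zero_mem _, ?_⟩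
    ext j
    by_cases hj : j = i
    · subst hj; simp [hx']
    · simp [Function.update_of_ne hj]

variable {D : Type v} [CommRing D] (m : Model (Π i, T i) D)

/-- local hypothesis on a factor: frames deep in the maximal ideal -/
def Rich (S : Type u) [CommRing S] [IsLocalRing S] : Prop :=
  ∀ m : ℕ, ∃ (q : Ideal S) (e₁ e₂ e₃ : S), q ≤ maximalIdeal S ^ m ∧ Indep q e₁ e₂ e₃ ∧
      e₁ ∈ nonZeroDivisors S ∧ Reg q

include m in
lemma natCast_eq_zero (i : ι) [IsLocalRing (T i)] [IsNoetherianRing (T i)] (hi : Rich (T i))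
    (n : ℕ) (hn : (n : D) = 0) : (n : T i) = 0 := by
  rw [← Ideal.mem_bot]
  refine mem_of_forall_mem_sup _ fun k => Ideal.mem_sup_right ?_
  obtain ⟨q, e₁, e₂, e₃, hq, h, he, hq'⟩ := hi k
  obtain ⟨E₁, E₂, E₃, hE, hI, -⟩ := lift_frame i h he hq'
  have := m.natCast_mem hE hI n hn
  exact hq (by simpa [Ideal.mem_comap] using this)

include m in
lemma natCast_regular (i : ι) [IsLocalRing (T i)] [IsNoetherianRing (T i)] (hi : Rich (T i))
    (n : ℕ) (hn : (n : D) ≠ 0) : (n : T i) ∈ nonZeroDivisors (T i) := by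
  obtain ⟨J, hJ, e⟩ := m.surj (Ideal.span {(n : D)}) (by simpa using hn)
  obtain ⟨x, hxJ, hx⟩ := id hJ
  have h1 : x i ∈ Ideal.span {(n : T i)} := by
    refine mem_of_forall_mem_sup _ fun k => ?_
    obtain ⟨q, e₁, e₂, e₃, hq, h, he, hq'⟩ := hi k
    obtain ⟨E₁, E₂, E₃, hE, hI, -⟩ := lift_frame i h he hq'
    obtain ⟨r, y, hy, e'⟩ := Ideal.mem_span_singleton_sup.1 (m.le_natCast_sup hE hI n hJ e hxJ)
    refine Ideal.mem_span_singleton_sup.2 ⟨r i, y i, hq hy, ?_⟩
    simpa using congrFun e' i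
  obtain ⟨c, hc⟩ := Ideal.mem_span_singleton'.1 h1
  have h2 := (pi_regular_iff x).1 hx i
  rw [← hc] at h2
  exact (mul_mem_nonZeroDivisors.1 h2).2

include m in
lemma card_model_le (i : ι) [IsLocalRing (T i)] [IsNoetherianRing (T i)] (hi : Rich (T i)) :
    lift.{u} #D ≤ lift.{v} ((max #(T i) ℵ₀) ^ ℵ₀) := by
  choose q e₁ e₂ e₃ hq h he hq' using hi
  choose E₁ E₂ E₃ hE hI hker using fun k => lift_frame i (h k) (he k) (hq' k)
  have hQ : ∀ k, Reg ((q k).comap (Pi.evalRingHom T i)) := fun k => (hI k).mono (by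
    rintro _ ⟨s₁, h₁, s₂, h₂, s₃, h₃, rfl⟩
    exact Ideal.add_mem _ (Ideal.add_mem _ (Ideal.mul_mem_right _ _ h₁)
      (Ideal.mul_mem_right _ _ h₂)) (Ideal.mul_mem_right _ _ h₃))
  have hsurj : Function.Surjective (Pi.evalRingHom T i) := Function.surjective_eval i
  have h1 : ∀ k, lift.{u} #(D ⧸ m.F ((q k).comap (Pi.evalRingHom T i)))
      ≤ lift.{v} (max #(T i) ℵ₀) := by
    intro k
    refine (m.card_quot_le (hE k) (hI k)).trans (lift_le.2 (le_trans ?_ (card_ideal_le (T i))))
    refine mk_le_of_injective (f := fun X => X.1.map (Pi.evalRingHom T i)) ?_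
    intro X Y hXY
    have := congrArg (Ideal.comap (Pi.evalRingHom T i)) hXY
    simp only [Ideal.comap_map_of_surjective _ hsurj, ← RingHom.ker_eq_comap_bot] at this
    rw [sup_eq_left.2 ((hker k).trans X.2), sup_eq_left.2 ((hker k).trans Y.2)] at this
    exact Subtype.ext this
  have hinj : Function.Injective (fun d : D => (fun k : ℕ =>
      Ideal.Quotient.mk (m.F ((q k).comap (Pi.evalRingHom T i))) d)) := by
    intro d d' hd
    by_contra hne
    obtain ⟨Z, hZ, e⟩ := m.surj (Ideal.span {d - d'}) (by simpa [sub_eq_zero] using hne)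
    obtain ⟨x, hxZ, hx⟩ := id hZ
    have h2 : x i ∈ (⊥ : Ideal (T i)) := by
      refine mem_of_forall_mem_sup _ fun k => Ideal.mem_sup_right (hq k ?_)
      have h3 : m.F Z ≤ m.F ((q k).comap (Pi.evalRingHom T i)) := by
        rw [e, Ideal.span_singleton_le_iff_mem]
        exact Ideal.Quotient.eq.1 (congrFun hd k)
      exact (m.le_iff hZ (hQ k)).1 h3 hxZ
    exact nonZeroDivisors.ne_zero ((pi_regular_iff x).1 hx i) h2
  have h4 := lift_le.{u}.2 (mk_le_of_injective hinj)
  refine h4.trans ?_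
  rw [mk_pi, lift_prod]
  refine (prod_le_prod _ (fun _ => lift.{v} (max #(T i) ℵ₀)) h1).trans ?_
  simp

include m in
lemma card_residue_le [Finite ι] [∀ i, IsNoetherianRing (T i)] (j : ι) [IsLocalRing (T j)]
    (hj : Rich (T j)) : lift.{v} #(ResidueField (T j)) ≤ lift.{u} (max #D ℵ₀) := by
  obtain ⟨q, e₁, e₂, e₃, hq, h, he, hq'⟩ := hj 1
  obtain ⟨E₁, E₂, E₃, hE, hI, -⟩ := lift_frame j h he hq'
  have := m.isNoetherianRing
  refine le_trans (lift_le.2 ?_) ((m.card_quot_le' hE hI).trans (lift_le.2 (card_ideal_le D)))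
  let g : (Π i, T i) ⧸ q.comap (Pi.evalRingHom T j) →+* ResidueField (T j) :=
    Ideal.Quotient.lift _ ((residue (T j)).comp (Pi.evalRingHom T j)) (fun x hx => by
      have := hq hx
      rw [pow_one] at this
      exact (residue_eq_zero_iff _).2 this)
  refine mk_le_of_surjective (f := g) ?_
  intro y
  obtain ⟨t, rfl⟩ := residue_surjective y
  obtain ⟨x, rfl⟩ := Function.surjective_eval j t
  exact ⟨Ideal.Quotient.mk _ x, rfl⟩

end Product

section Complete

variable {S : Type u} [CommRing S] [IsLocalRing S] [IsNoetherianRing S]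
  [IsAdicComplete (maximalIdeal S) S]

lemma card_quot_eq (P : Ideal S) [P.IsPrime] (hPM : P ≠ maximalIdeal S) :
    #(S ⧸ P) = #S :=
  le_antisymm (mk_le_of_surjective Ideal.Quotient.mk_surjective)
    (card_le_pow.trans (pow_le_card P hPM))

lemma card_eq_pow (P : Ideal S) [P.IsPrime] (hPM : P ≠ maximalIdeal S) :
    #S = #(ResidueField S) ^ ℵ₀ :=
  le_antisymm card_le_pow
    ((pow_le_card P hPM).trans (mk_le_of_surjective Ideal.Quotient.mk_surjective))

lemma aleph0_lt_card (P : Ideal S) [P.IsPrime] (hPM : P ≠ maximalIdeal S) : ℵ₀ < #S := by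
  rw [card_eq_pow P hPM]
  have h2 : (2 : Cardinal) ≤ #(ResidueField S) := two_le_iff.2 ⟨0, 1, zero_ne_one⟩
  refine lt_of_lt_of_le aleph0_lt_continuum ?_
  rw [← two_power_aleph0]
  exact power_le_power_right h2

omit [IsAdicComplete (maximalIdeal S) S] in
lemma ne_max_of_dim {P : Ideal S} [P.IsPrime] (h : 2 ≤ ringKrullDim (S ⧸ P)) :
    P ≠ maximalIdeal S := by
  rintro rfl
  obtain ⟨Q, hQ, h1, -, h3⟩ := exists_prime_ne _ h 0 (Ideal.zero_mem _)
  exact h3 ((maximalIdeal.isMaximal S).eq_of_le hQ.ne_top h1).symm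

end Complete

/-- Sufficiency for a finite product of Noetherian rings. -/
theorem hasDomainModel_pi {ι : Type} [Finite ι] [Nonempty ι] (T : ι → Type u)
    [∀ i, CommRing (T i)] [∀ i, IsNoetherianRing (T i)] (c : Cardinal.{u}) (hc : ℵ₀ < c)
    (hcard : ∀ i, #(T i) = c) (hquot : ∀ i, ∀ P ∈ associatedPrimes (T i) (T i), c ≤ #(T i ⧸ P))
    (hint : ∀ n : ℤ, (n : Π i, T i) = 0 ∨ (n : Π i, T i) ∈ nonZeroDivisors (Π i, T i)) :
    HasDomainModel.{u, u} (Π i, T i) := by
  classical
  have hR : #(Π i, T i) = c := by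
    have := Fintype.ofFinite ι
    rw [mk_pi, funext hcard, prod_const]
    simp only [mk_fintype, lift_natCast, lift_uzero]
    exact power_nat_eq hc.le Fintype.card_pos
  have : Infinite (Π i, T i) := by
    rw [← aleph0_le_mk_iff, hR]; exact hc.le
  have hfin : (⋃ i, (Ideal.comap (Pi.evalRingHom T i)) '' associatedPrimes (T i) (T i)).Finite :=
    Set.finite_iUnion fun i => (associatedPrimes.finite (T i) (T i)).image _
  have hmem : ∀ Q, Q ∈ hfin.toFinset ↔
      ∃ i, ∃ P ∈ associatedPrimes (T i) (T i), P.comap (Pi.evalRingHom T i) = Q := by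
    intro Q; simp
  refine hasDomainModel_of_bigTr hfin.toFinset ?_ ?_ hint ?_
  · intro Q hQ
    obtain ⟨i, P, hP, rfl⟩ := (hmem Q).1 hQ
    have := hP.isPrime
    infer_instance
  · intro x
    rw [pi_regular_iff]
    constructor
    · intro hx Q hQ
      obtain ⟨i, P, hP, rfl⟩ := (hmem Q).1 hQ
      exact (regular_iff _).1 (hx i) P hP
    · intro hx i
      exact (regular_iff _).2 fun P hP => hx _ ((hmem _).2 ⟨i, P, hP, rfl⟩)
  · intro Q hQ
    obtain ⟨i, P, hP, rfl⟩ := (hmem Q).1 hQ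
    have := hP.isPrime
    rw [hR]
    refine bigTr_of_card hc ((hquot i P hP).trans ?_)
    exact mk_le_of_surjective (Ideal.quotientMap_surjective (I := P)
      (f := Pi.evalRingHom T i) (H := le_rfl) (Function.surjective_eval i))

end Pool.Agent.MP_f1fec5_al
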